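import Pool.Agent.Helper98.PS.K1
import Pool.Agent.Helper33.PS.Defs
import Pool.Agent.Helper55.RD.RatLB

/-!
# Plan S, module M2: the energy inequality
-/

set_option autoImplicit false

open Finset Polynomial

namespace Pool.Agent.Helper98.PS

open Pool.Agent.Helper33 Pool.Agent.Helper33.PS Pool.Agent.Helper93.RatODE Pool.Agent.Helper55.RD

variable {K : Type*} [Field K]

section algebra

/-- the matrix of products of orbit points -/
noncomputable def Mz (z : ℕ → K) (δ k : ℕ) : Matrix (Fin (δ ^ k)) (Fin (δ ^ k)) K :=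
  Matrix.of fun l c =>
    ∏ t : Fin k, z (l + t) ^ ((finFunctionFinEquiv.symm c : Fin k → Fin δ) t : ℕ)

/-- row factor -/
noncomputable def rowf (A B : K[X]) (δ k : ℕ) (x : K) : K :=
  ∏ t : Fin k, (iter A B δ t).2.eval x ^ (δ - 1)

lemma iter_orb {A B : K[X]} {δ n : ℕ} (hA : A.natDegree ≤ δ) (hB : B.natDegree ≤ δ) {z : ℕ → K}
    (hz : Orb A B z n) (l t : ℕ) (hl : l + t ≤ n) :
    (iter A B δ t).2.eval (z l) ≠ 0 ∧
      (iter A B δ t).1.eval (z l) = (iter A B δ t).2.eval (z l) * z (l + t) := by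
  have h := iter_orbit hA hB z l t fun j hj => ⟨hz.ne (l + j) (by omega), hz.step (l + j) (by omega)⟩
  refine ⟨h.1, ?_⟩
  rw [← h.2, mul_div_cancel₀ _ h.1]

lemma SP_eval_orb {A B : K[X]} {δ k n : ℕ} (hA : A.natDegree ≤ δ) (hB : B.natDegree ≤ δ)
    {z : ℕ → K} (hz : Orb A B z n) (l : ℕ) (hl : l + k ≤ n + 1) (a : Fin k → Fin δ) :
    (SP A B δ k a).eval (z l) = rowf A B δ k (z l) * ∏ t : Fin k, z (l + t) ^ (a t : ℕ) := by
  rw [SP, eval_prod, rowf, ← prod_mul_distrib]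
  refine prod_congr rfl fun t _ => ?_
  have h := (iter_orb hA hB hz l t (by have := t.2; omega)).2
  rw [eval_mul, eval_pow, eval_pow, h, mul_pow]
  have e : δ - 1 = a t + (δ - 1 - a t) := by have := (a t).2; omega
  conv_rhs => rw [e, pow_add]
  ring

lemma det_identity {A B : K[X]} {δ k n : ℕ} (hδ : 1 ≤ δ) (hA : A.natDegree ≤ δ)
    (hB : B.natDegree ≤ δ) {z : ℕ → K} (hz : Orb A B z n) (hn : δ ^ k + k ≤ n + 1) :
    (∏ l : Fin (δ ^ k), rowf A B δ k (z l)) * (Mz z δ k).det =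
      (Matrix.vandermonde fun l : Fin (δ ^ k) => z l).det *
      (Matrix.of fun a (c : Fin (δ ^ k)) =>
        (SP A B δ k (finFunctionFinEquiv.symm a)).coeff (c : ℕ)).det := by
  rw [← Matrix.det_mul_column, ← Matrix.det_transpose (Matrix.of fun a (c : Fin (δ ^ k)) =>
        (SP A B δ k (finFunctionFinEquiv.symm a)).coeff (c : ℕ)), ← Matrix.det_mul]
  congr 1
  ext l c
  rw [Matrix.of_apply, Matrix.mul_apply]
  have h1 := SP_eval_orb hA hB hz (k := k) l (by have := l.2; omega) (finFunctionFinEquiv.symm c)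
  rw [Mz, Matrix.of_apply, ← h1, eval_eq_sum_range' (natDegree_SP_lt hδ _),
    ← Fin.sum_univ_eq_sum_range (fun i => (SP A B δ k (finFunctionFinEquiv.symm c)).coeff i *
      z l ^ i) (δ ^ k)]
  refine sum_congr rfl fun i _ => ?_
  rw [Matrix.vandermonde_apply, Matrix.transpose_apply, Matrix.of_apply, mul_comm]

end algebra

section anyplace

lemma neg_nonneg' (v : DV K) (x : K) : 0 ≤ neg v x := by
  unfold neg
  split_ifs
  · exact le_rfl
  · exact le_max_left _ _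

lemma neg_of_ge {v : DV K} {x : K} (h : v.ge 0 x) : neg v x = 0 := by
  unfold neg
  split_ifs with h0
  · rfl
  · have h1 := DV.ge_le h h0
    have h2 : 0 ≤ v.o x := by exact_mod_cast h1
    omega

lemma ge_neg_self (v : DV K) (x : K) : v.ge (-(neg v x : ℝ)) x := by
  by_cases h : x = 0
  · exact Or.inl h
  right
  unfold neg
  rw [if_neg h]
  have h1 : -(v.o x) ≤ max 0 (-(v.o x)) := le_max_right _ _
  have h2 : (-(max 0 (-(v.o x))) : ℤ) ≤ v.o x := by omega
  exact_mod_cast h2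

lemma ge_neg_pow (v : DV K) (x : K) {a b : ℕ} (hab : a ≤ b) :
    v.ge (-((b : ℝ) * neg v x)) (x ^ a) := by
  refine DV.ge_mono (DV.ge_pow (ge_neg_self v x) a) ?_
  have h1 : (0 : ℝ) ≤ neg v x := by exact_mod_cast neg_nonneg' v x
  have h2 : (a : ℝ) ≤ b := by exact_mod_cast hab
  nlinarith

lemma ge_det_Mz (v : DV K) (z : ℕ → K) (δ k : ℕ) :
    v.ge (∑ l : Fin (δ ^ k), ∑ t : Fin k, -(((δ - 1 : ℕ) : ℝ) * neg v (z (l + t))))
      (Mz z δ k).det := by
  rw [← Matrix.det_transpose]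
  refine ge_det _ _ fun c l => ?_
  rw [Matrix.transpose_apply, Mz, Matrix.of_apply]
  refine ge_prod _ _ _ fun t _ => ge_neg_pow v _ ?_
  have := ((finFunctionFinEquiv.symm c : Fin k → Fin δ) t).2
  omega

end anyplace

section localbound

variable {v : DV K} {A B : K[X]} {δ k n : ℕ} {z : ℕ → K}

lemma ge_eval {P : K[X]} (hP : IntP v P) {x : K} (hx : v.ge 0 x) : v.ge 0 (P.eval x) := by
  rw [eval_eq_sum_range]
  refine DV.ge_sum _ _ fun i _ => ?_
  have := DV.ge_mul (hP i) (DV.ge_pow hx i)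
  simpa using this

lemma o_B_nonneg (hBi : IntP v B) (hz : Orb A B z n) (hint : ∀ i ≤ n, v.ge 0 (z i)) (j : ℕ)
    (hj : j < n) : 0 ≤ v.o (B.eval (z j)) := by
  have h := DV.ge_le (ge_eval hBi (hint j hj.le)) (hz.ne j hj)
  exact_mod_cast h

lemma ge_A (hz : Orb A B z n) (hint : ∀ i ≤ n, v.ge 0 (z i)) (j : ℕ)
    (hj : j < n) : v.ge (v.o (B.eval (z j))) (A.eval (z j)) := by
  have h1 : A.eval (z j) = z (j + 1) * B.eval (z j) := by
    rw [hz.step j hj, div_mul_cancel₀ _ (hz.ne j hj)]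
  rw [h1]
  have := DV.ge_mul (hint (j + 1) hj) (DV.ge_self (v := v) (B.eval (z j)))
  rwa [zero_add] at this

lemma o_B_le (hδ : 1 ≤ δ) (hA : A.natDegree ≤ δ) (hB : B.natDegree ≤ δ)
    (hres : resultant A B δ δ ≠ 0) (hAi : IntP v A) (hBi : IntP v B) (hz : Orb A B z n)
    (hint : ∀ i ≤ n, v.ge 0 (z i)) (j : ℕ) (hj : j < n) :
    v.o (B.eval (z j)) ≤ v.o (resultant A B δ δ) := by
  have h := le_resultant (x := (z j, 1)) hδ hres hAi hBi
    ⟨hint j hj.le, DV.ge_one, Or.inr ⟨one_ne_zero, v.o_one⟩⟩ (c := v.o (B.eval (z j)))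
    (by rw [hom_eval hA]; exact ge_A hz hint j hj) (by rw [hom_eval hB]; exact DV.ge_self _)
  exact_mod_cast h

lemma card_B_pos (hA : A.natDegree ≤ δ) (hB : B.natDegree ≤ δ)
    (hprim : ∃ i, (A.coeff i ≠ 0 ∧ v.o (A.coeff i) = 0) ∨ (B.coeff i ≠ 0 ∧ v.o (B.coeff i) = 0))
    (hz : Orb A B z n)
    (hint : ∀ i ≤ n, v.ge 0 (z i)) (hne : ∀ i ≤ n, ∀ j ≤ n, z i = z j → i = j)
    (hdiff : ∀ i ≤ n, ∀ j ≤ n, i ≠ j → v.o (z i - z j) = 0) (T : Finset ℕ) (hT : ∀ j ∈ T, j < n)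
    (hTB : ∀ j ∈ T, 1 ≤ v.o (B.eval (z j))) : T.card ≤ δ := by
  by_contra hcard
  push Not at hcard
  obtain ⟨T', hT', hcard'⟩ := Finset.exists_subset_card_eq (n := δ + 1) hcard
  have key : ∀ P : K[X], P.natDegree ≤ δ → (∀ j ∈ T, v.ge 1 (P.eval (z j))) →
      ∀ i, v.ge 1 (P.coeff i) := by
    intro P hP hval i
    have h := cramer v hP T' hcard' (fun j => (z j, (1 : K))) (fun j hj => hint j (hT j (hT' hj)).le)
      (fun j _ => DV.ge_one) 0 1 (by
        intro i hi j hj hij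
        have hi' := (hT i (hT' hi)).le
        have hj' := (hT j (hT' hj)).le
        have e : wedge ((z i, (1 : K))) ((z j, (1 : K))) = z i - z j := by
          simp [wedge]
        rw [e]
        refine ⟨sub_ne_zero.mpr fun h => hij (hne i hi' j hj' h), ?_⟩
        rw [hdiff i hi' j hj' hij]
        simp) (by
        intro j hj
        rw [hom_eval hP]
        exact hval j (hT' hj)) i
    simpa using h
  have hBv : ∀ j ∈ T, v.ge 1 (B.eval (z j)) := fun j hj => Or.inr (by exact_mod_cast hTB j hj)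
  have hAv : ∀ j ∈ T, v.ge 1 (A.eval (z j)) := fun j hj =>
    DV.ge_mono (ge_A hz hint j (hT j hj)) (by exact_mod_cast hTB j hj)
  obtain ⟨i, ⟨h0, h1⟩ | ⟨h0, h1⟩⟩ := hprim
  · have := DV.ge_le (key A hA hAv i) h0
    rw [h1] at this
    norm_num at this
  · have := DV.ge_le (key B hB hBv i) h0
    rw [h1] at this
    norm_num at this

lemma sum_B_le (hδ : 1 ≤ δ) (hA : A.natDegree ≤ δ) (hB : B.natDegree ≤ δ)
    (hres : resultant A B δ δ ≠ 0) (hAi : IntP v A) (hBi : IntP v B)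
    (hprim : ∃ i, (A.coeff i ≠ 0 ∧ v.o (A.coeff i) = 0) ∨ (B.coeff i ≠ 0 ∧ v.o (B.coeff i) = 0))
    (hz : Orb A B z n)
    (hint : ∀ i ≤ n, v.ge 0 (z i)) (hne : ∀ i ≤ n, ∀ j ≤ n, z i = z j → i = j)
    (hdiff : ∀ i ≤ n, ∀ j ≤ n, i ≠ j → v.o (z i - z j) = 0) (t m : ℕ) (hm : t + m ≤ n) :
    ∑ l ∈ range m, v.o (B.eval (z (l + t))) ≤ δ * v.o (resultant A B δ δ) := by
  classical
  set T := (range m).filter fun l => 1 ≤ v.o (B.eval (z (l + t))) with hT
  have h1 : ∑ l ∈ range m, v.o (B.eval (z (l + t))) =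
      ∑ l ∈ T, v.o (B.eval (z (l + t))) := by
    rw [hT, sum_filter]
    refine sum_congr rfl fun l hl => ?_
    rw [mem_range] at hl
    split_ifs with h
    · rfl
    · have := o_B_nonneg hBi hz hint (l + t) (by omega)
      omega
  rw [h1]
  have hρ : 0 ≤ v.o (resultant A B δ δ) := by
    have := ge_resultant (m := δ) (n := δ) hAi hBi
    have := DV.ge_le this hres
    have h3 : (0 : ℝ) ≤ v.o (resultant A B δ δ) := by simpa using this
    exact_mod_cast h3
  have hc : T.card ≤ δ := by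
    have := card_B_pos hA hB hprim hz hint hne hdiff (T.map (addRightEmbedding t)) (by
      intro j hj
      rw [mem_map] at hj
      obtain ⟨l, hl, rfl⟩ := hj
      rw [hT, mem_filter, mem_range] at hl
      simp only [addRightEmbedding_apply]
      omega) (by
      intro j hj
      rw [mem_map] at hj
      obtain ⟨l, hl, rfl⟩ := hj
      rw [hT, mem_filter, mem_range] at hl
      exact hl.2)
    rwa [card_map] at this
  calc ∑ l ∈ T, v.o (B.eval (z (l + t))) ≤ ∑ l ∈ T, v.o (resultant A B δ δ) := by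
        refine sum_le_sum fun l hl => ?_
        rw [hT, mem_filter, mem_range] at hl
        exact o_B_le hδ hA hB hres hAi hBi hz hint (l + t) (by omega)
    _ = T.card * v.o (resultant A B δ δ) := by simp
    _ ≤ δ * v.o (resultant A B δ δ) := by
        exact mul_le_mul_of_nonneg_right (by exact_mod_cast hc) hρ

lemma o_iter_succ (hA : A.natDegree ≤ δ) (hB : B.natDegree ≤ δ) (hz : Orb A B z n) (l t : ℕ)
    (hl : l + t < n) : v.o ((iter A B δ (t + 1)).2.eval (z l)) =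
      δ * v.o ((iter A B δ t).2.eval (z l)) + v.o (B.eval (z (l + t))) := by
  obtain ⟨h1, h2⟩ := iter_orb hA hB hz l t hl.le
  have e2 : (iter A B δ (t + 1)).2.eval (z l) =
      (iter A B δ t).2.eval (z l) ^ δ * B.eval (z (l + t)) := by
    change (hev B δ (iter A B δ t).1 (iter A B δ t).2).eval (z l) = _
    rw [hev_eval, hev_eq_eval B δ hB _ _ h1, h2, mul_div_cancel_left₀ _ h1]
  rw [e2, v.mul _ _ (pow_ne_zero _ h1) (hz.ne _ hl), v.o_pow _ h1]

lemma sum_W_le (hδ : 1 ≤ δ) (hA : A.natDegree ≤ δ) (hB : B.natDegree ≤ δ)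
    (hres : resultant A B δ δ ≠ 0) (hAi : IntP v A) (hBi : IntP v B)
    (hprim : ∃ i, (A.coeff i ≠ 0 ∧ v.o (A.coeff i) = 0) ∨ (B.coeff i ≠ 0 ∧ v.o (B.coeff i) = 0))
    (hz : Orb A B z n)
    (hint : ∀ i ≤ n, v.ge 0 (z i)) (hne : ∀ i ≤ n, ∀ j ≤ n, z i = z j → i = j)
    (hdiff : ∀ i ≤ n, ∀ j ≤ n, i ≠ j → v.o (z i - z j) = 0) (m t : ℕ) (hm : t + m ≤ n + 1) :
    (δ - 1 : ℤ) * ∑ l ∈ range m, v.o ((iter A B δ t).2.eval (z l)) +
      δ * v.o (resultant A B δ δ) ≤ δ * v.o (resultant A B δ δ) * δ ^ t := by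
  induction t with
  | zero => simp [iter, v.o_one]
  | succ t ih =>
    have h1 : ∑ l ∈ range m, v.o ((iter A B δ (t + 1)).2.eval (z l)) =
        δ * ∑ l ∈ range m, v.o ((iter A B δ t).2.eval (z l)) +
          ∑ l ∈ range m, v.o (B.eval (z (l + t))) := by
      rw [mul_sum, ← sum_add_distrib]
      refine sum_congr rfl fun l hl => ?_
      rw [mem_range] at hl
      exact o_iter_succ hA hB hz l t (by omega)
    have h2 := sum_B_le hδ hA hB hres hAi hBi hprim hz hint hne hdiff t m (by omega)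
    have h3 := ih (by omega)
    rw [h1, pow_succ]
    have hδ' : (1 : ℤ) ≤ δ := by exact_mod_cast hδ
    nlinarith [mul_le_mul_of_nonneg_left h2 (by omega : (0 : ℤ) ≤ (δ : ℤ) - 1),
      mul_le_mul_of_nonneg_left h3 (by omega : (0 : ℤ) ≤ (δ : ℤ))]

lemma sum_rowf_le (hδ : 2 ≤ δ) (hA : A.natDegree ≤ δ) (hB : B.natDegree ≤ δ)
    (hres : resultant A B δ δ ≠ 0) (hAi : IntP v A) (hBi : IntP v B)
    (hprim : ∃ i, (A.coeff i ≠ 0 ∧ v.o (A.coeff i) = 0) ∨ (B.coeff i ≠ 0 ∧ v.o (B.coeff i) = 0))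
    (hz : Orb A B z n)
    (hint : ∀ i ≤ n, v.ge 0 (z i)) (hne : ∀ i ≤ n, ∀ j ≤ n, z i = z j → i = j)
    (hdiff : ∀ i ≤ n, ∀ j ≤ n, i ≠ j → v.o (z i - z j) = 0) (m k : ℕ) (hm : k + m ≤ n + 1) :
    ∑ l ∈ range m, v.o (rowf A B δ k (z l)) ≤ δ * v.o (resultant A B δ δ) * δ ^ k := by
  have h0 : ∀ l ∈ range m, v.o (rowf A B δ k (z l)) =
      ∑ t ∈ range k, (δ - 1 : ℤ) * v.o ((iter A B δ t).2.eval (z l)) := by
    intro l hl
    rw [mem_range] at hl
    rw [rowf, v.o_prod]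
    · rw [← Fin.sum_univ_eq_sum_range (fun t => (δ - 1 : ℤ) * v.o ((iter A B δ t).2.eval (z l))) k]
      refine sum_congr rfl fun t _ => ?_
      rw [v.o_pow _ (iter_orb hA hB hz l t (by have := t.2; omega)).1]
      push_cast [Nat.cast_sub (by omega : 1 ≤ δ)]
      ring
    · intro t _
      exact pow_ne_zero _ (iter_orb hA hB hz l t (by have := t.2; omega)).1
  rw [sum_congr rfl h0, sum_comm]
  have hρ : 0 ≤ v.o (resultant A B δ δ) := by
    have := ge_resultant (m := δ) (n := δ) hAi hBi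
    have := DV.ge_le this hres
    have h3 : (0 : ℝ) ≤ v.o (resultant A B δ δ) := by simpa using this
    exact_mod_cast h3
  have hδ' : (2 : ℤ) ≤ δ := by exact_mod_cast hδ
  clear h0
  induction k with
  | zero => simp; positivity
  | succ k ih =>
    rw [sum_range_succ, pow_succ, ← mul_sum]
    have h3 := ih (by omega)
    have h4 := sum_W_le (by omega) hA hB hres hAi hBi hprim hz hint hne hdiff m k (by omega)
    have h5 : (0 : ℤ) ≤ δ * v.o (resultant A B δ δ) * δ ^ k := by positivity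
    have h6 : (0 : ℤ) ≤ δ * v.o (resultant A B δ δ) := by positivity
    nlinarith [mul_le_mul_of_nonneg_left hδ' h5]

lemma o_vandermonde {m : ℕ} (hne : ∀ i < m, ∀ j < m, z i = z j → i = j)
    (hdiff : ∀ i < m, ∀ j < m, i ≠ j → v.o (z i - z j) = 0) :
    (Matrix.vandermonde fun l : Fin m => z l).det ≠ 0 ∧
      v.o (Matrix.vandermonde fun l : Fin m => z l).det = 0 := by
  have h0 : ∀ i : Fin m, ∀ j ∈ Ioi i, z j - z i ≠ 0 := by
    intro i j hj
    rw [mem_Ioi] at hj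
    refine sub_ne_zero.mpr fun h => ?_
    have := hne j j.2 i i.2 h
    have h2 : (i : ℕ) < j := hj
    omega
  have h1 : (Matrix.vandermonde fun l : Fin m => z l).det ≠ 0 := by
    rw [Matrix.det_vandermonde]
    exact prod_ne_zero_iff.mpr fun i _ => prod_ne_zero_iff.mpr fun j hj => h0 i j hj
  refine ⟨h1, ?_⟩
  rw [Matrix.det_vandermonde, v.o_prod _ _ fun i _ => prod_ne_zero_iff.mpr fun j hj => h0 i j hj]
  refine sum_eq_zero fun i _ => ?_
  rw [v.o_prod _ _ fun j hj => h0 i j hj]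
  refine sum_eq_zero fun j hj => ?_
  rw [mem_Ioi] at hj
  have h2 : (i : ℕ) < j := hj
  exact hdiff j j.2 i i.2 (by omega)

lemma det_Mz_ne_zero (hδ : 1 ≤ δ) (hA : A.natDegree ≤ δ) (hB : B.natDegree ≤ δ)
    (hres : resultant A B δ δ ≠ 0) (hz : Orb A B z n) (hn : δ ^ k + k ≤ n + 1)
    (hne : ∀ i ≤ n, ∀ j ≤ n, z i = z j → i = j) : (Mz z δ k).det ≠ 0 := by
  have h1 := det_identity hδ hA hB hz hn
  have h2 : (Matrix.of fun a (c : Fin (δ ^ k)) =>
        (SP A B δ k (finFunctionFinEquiv.symm a)).coeff (c : ℕ)).det ^ 2 =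
      (resultant A B δ δ ^ rexp δ k) ^ 2 := by
    rw [← csq_SP hδ hA hB, csq_eq _ finFunctionFinEquiv]
    congr 1
    rw [cdet, ← Matrix.det_submatrix_equiv_self finFunctionFinEquiv.symm]
    congr 1
    ext i j
    rw [Matrix.submatrix_apply, Matrix.of_apply, Matrix.of_apply, Equiv.apply_symm_apply]
  have h3 : (Matrix.of fun a (c : Fin (δ ^ k)) =>
        (SP A B δ k (finFunctionFinEquiv.symm a)).coeff (c : ℕ)).det ≠ 0 := by
    intro h0
    rw [h0, zero_pow two_ne_zero] at h2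
    exact pow_ne_zero _ (pow_ne_zero _ hres) h2.symm
  have h4 : (Matrix.vandermonde fun l : Fin (δ ^ k) => z l).det ≠ 0 := by
    rw [Matrix.det_vandermonde_ne_zero_iff]
    intro i j hij
    exact Fin.ext (hne i (by have := i.2; omega) j (by have := j.2; omega) hij)
  intro h0
  rw [h0, mul_zero] at h1
  exact mul_ne_zero h4 h3 h1.symm

/-- the local estimate, normalised -/
lemma local_bound (hδ : 2 ≤ δ) (hA : A.natDegree ≤ δ) (hB : B.natDegree ≤ δ)
    (hres : resultant A B δ δ ≠ 0) (hAi : IntP v A) (hBi : IntP v B)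
    (hprim : ∃ i, (A.coeff i ≠ 0 ∧ v.o (A.coeff i) = 0) ∨ (B.coeff i ≠ 0 ∧ v.o (B.coeff i) = 0))
    (hz : Orb A B z n) (hn : δ ^ k + k ≤ n + 1)
    (hint : ∀ i ≤ n, v.ge 0 (z i)) (hne : ∀ i ≤ n, ∀ j ≤ n, z i = z j → i = j)
    (hdiff : ∀ i ≤ n, ∀ j ≤ n, i ≠ j → v.o (z i - z j) = 0)
    (hρ : 1 ≤ v.o (resultant A B δ δ)) (hr : δ * δ ^ k ≤ rexp δ k) :
    (rexp δ k : ℤ) - δ * δ ^ k ≤ v.o (Mz z δ k).det := by
  have h1 := det_identity (by omega : 1 ≤ δ) hA hB hz hn
  have hC2 : (Matrix.of fun a (c : Fin (δ ^ k)) =>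
        (SP A B δ k (finFunctionFinEquiv.symm a)).coeff (c : ℕ)).det ^ 2 =
      (resultant A B δ δ ^ rexp δ k) ^ 2 := by
    rw [← csq_SP (by omega : 1 ≤ δ) hA hB, csq_eq _ finFunctionFinEquiv]
    congr 1
    rw [cdet, ← Matrix.det_submatrix_equiv_self finFunctionFinEquiv.symm]
    congr 1
    ext i j
    rw [Matrix.submatrix_apply, Matrix.of_apply, Matrix.of_apply, Equiv.apply_symm_apply]
  set Cd := (Matrix.of fun a (c : Fin (δ ^ k)) =>
        (SP A B δ k (finFunctionFinEquiv.symm a)).coeff (c : ℕ)).det with hCd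
  have hC0 : Cd ≠ 0 := by
    intro h0
    rw [h0, zero_pow two_ne_zero] at hC2
    exact pow_ne_zero _ (pow_ne_zero _ hres) hC2.symm
  have hCo : v.o Cd = rexp δ k * v.o (resultant A B δ δ) := by
    have h2 := congrArg v.o hC2
    rw [v.o_pow _ hC0, v.o_pow _ (pow_ne_zero _ hres), v.o_pow _ hres] at h2
    push_cast at h2
    linarith
  obtain ⟨hV0, hVo⟩ := o_vandermonde (v := v) (z := z) (m := δ ^ k)
    (fun i hi j hj => hne i (by omega) j (by omega))
    (fun i hi j hj => hdiff i (by omega) j (by omega))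
  have hM0 : (Mz z δ k).det ≠ 0 := det_Mz_ne_zero (by omega) hA hB hres hz hn hne
  have hR0 : ∀ l : Fin (δ ^ k), rowf A B δ k (z l) ≠ 0 := by
    intro l
    refine prod_ne_zero_iff.mpr fun t _ => ?_
    have := t.2
    have := l.2
    exact pow_ne_zero _ (iter_orb hA hB hz l t (by omega)).1
  have h2 := congrArg v.o h1
  rw [v.mul _ _ (prod_ne_zero_iff.mpr fun l _ => hR0 l) hM0, v.mul _ _ hV0 hC0, hVo, hCo,
    v.o_prod _ _ fun l _ => hR0 l,
    Fin.sum_univ_eq_sum_range (fun l => v.o (rowf A B δ k (z l))) (δ ^ k)] at h2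
  have h3 := sum_rowf_le hδ hA hB hres hAi hBi hprim hz hint hne hdiff (δ ^ k) k (by omega)
  have hr' : (δ : ℤ) * δ ^ k ≤ rexp δ k := by exact_mod_cast hr
  nlinarith [mul_le_mul_of_nonneg_left hρ (by linarith : (0 : ℤ) ≤ (rexp δ k : ℤ) - δ * δ ^ k)]

end localbound

section scaling

/-- choice of the normalising coefficient -/
lemma exists_min_coeff (v : DV K) {A B : K[X]} (h : A ≠ 0 ∨ B ≠ 0) :
    ∃ c : K, c ≠ 0 ∧ (∀ i, v.ge (v.o c) (A.coeff i)) ∧ (∀ i, v.ge (v.o c) (B.coeff i)) ∧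
      ∃ i, A.coeff i = c ∨ B.coeff i = c := by
  classical
  set T : Finset K := ((A.support.image A.coeff) ∪ (B.support.image B.coeff)) with hT
  have hTne : T.Nonempty := by
    rcases h with h | h
    · obtain ⟨i, hi⟩ := Polynomial.support_nonempty.mpr h
      exact ⟨A.coeff i, mem_union_left _ (mem_image_of_mem _ hi)⟩
    · obtain ⟨i, hi⟩ := Polynomial.support_nonempty.mpr h
      exact ⟨B.coeff i, mem_union_right _ (mem_image_of_mem _ hi)⟩
  obtain ⟨c, hcT, hc⟩ := exists_min_image T v.o hTne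
  have hA : ∀ i, v.ge (v.o c) (A.coeff i) := by
    intro i
    by_cases h0 : A.coeff i = 0
    · exact Or.inl h0
    · right
      exact_mod_cast hc _ (mem_union_left _ (mem_image_of_mem _ (Polynomial.mem_support_iff.mpr h0)))
  have hB : ∀ i, v.ge (v.o c) (B.coeff i) := by
    intro i
    by_cases h0 : B.coeff i = 0
    · exact Or.inl h0
    · right
      exact_mod_cast hc _ (mem_union_right _ (mem_image_of_mem _ (Polynomial.mem_support_iff.mpr h0)))
  rw [hT, mem_union, mem_image, mem_image] at hcT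
  rcases hcT with ⟨i, hi, h1⟩ | ⟨i, hi, h1⟩
  · exact ⟨c, h1 ▸ Polynomial.mem_support_iff.mp hi, hA, hB, i, Or.inl h1⟩
  · exact ⟨c, h1 ▸ Polynomial.mem_support_iff.mp hi, hA, hB, i, Or.inr h1⟩

lemma resultant_scale (c : K) (A B : K[X]) (δ : ℕ) :
    resultant (C c * A) (C c * B) δ δ = c ^ (2 * δ) * resultant A B δ δ := by
  rw [resultant_C_mul_left, resultant_C_mul_right, ← mul_assoc, ← pow_add, two_mul]

lemma isRat_res_ne_zero {A B : K[X]} {δ : ℕ} (hδ : 1 ≤ δ) (h : IsRat A B δ) :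
    resultant A B δ δ ≠ 0 := by
  refine resultant_ne_zero_of_isCoprime h.cop h.dA h.dB ?_ hδ
  rcases h.top with h1 | h1
  · exact Or.inl (le_antisymm h.dA (le_natDegree_of_ne_zero h1))
  · exact Or.inr (le_antisymm h.dB (le_natDegree_of_ne_zero h1))

/-- the local estimate -/
lemma local_bound' {v : DV K} {A B : K[X]} {δ k n : ℕ} {z : ℕ → K} (hδ : 2 ≤ δ)
    (hAB : IsRat A B δ) (hz : Orb A B z n) (hn : δ ^ k + k ≤ n + 1)
    (hint : ∀ i ≤ n, v.ge 0 (z i)) (hne : ∀ i ≤ n, ∀ j ≤ n, z i = z j → i = j)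
    (hdiff : ∀ i ≤ n, ∀ j ≤ n, i ≠ j → v.o (z i - z j) = 0)
    (hbad : ¬ IsGood v δ A B) (hr : δ * δ ^ k ≤ rexp δ k) :
    (rexp δ k : ℤ) - δ * δ ^ k ≤ v.o (Mz z δ k).det := by
  have hres := isRat_res_ne_zero (by omega) hAB
  obtain ⟨c, hc0, hcA, hcB, i, hi⟩ := exists_min_coeff v (A := A) (B := B) (by
    rcases hAB.top with h | h
    · left; rintro rfl; simp at h
    · right; rintro rfl; simp at h)
  have hci0 : c⁻¹ ≠ 0 := inv_ne_zero hc0
  have hco : v.o c⁻¹ = - v.o c := v.o_inv c hc0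
  have hcge : v.ge (-(v.o c : ℝ)) c⁻¹ := by
    right; rw [hco]; push_cast; exact le_rfl
  have hAi : IntP v (C c⁻¹ * A) := by
    intro j
    rw [coeff_C_mul]
    have := DV.ge_mul hcge (hcA j)
    simpa using this
  have hBi : IntP v (C c⁻¹ * B) := by
    intro j
    rw [coeff_C_mul]
    have := DV.ge_mul hcge (hcB j)
    simpa using this
  have hres' : resultant (C c⁻¹ * A) (C c⁻¹ * B) δ δ ≠ 0 := by
    rw [resultant_scale]
    exact mul_ne_zero (pow_ne_zero _ hci0) hres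
  have hρ0 : 0 ≤ v.o (resultant (C c⁻¹ * A) (C c⁻¹ * B) δ δ) := by
    have := ge_resultant (m := δ) (n := δ) hAi hBi
    have := DV.ge_le this hres'
    have h3 : (0 : ℝ) ≤ v.o (resultant (C c⁻¹ * A) (C c⁻¹ * B) δ δ) := by simpa using this
    exact_mod_cast h3
  have hρe : v.o (resultant (C c⁻¹ * A) (C c⁻¹ * B) δ δ) =
      v.o (resultant A B δ δ) - 2 * δ * v.o c := by
    rw [resultant_scale, v.mul _ _ (pow_ne_zero _ hci0) hres, v.o_pow _ hci0, hco]
    push_cast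
    ring
  have hρ1 : v.o (resultant (C c⁻¹ * A) (C c⁻¹ * B) δ δ) ≠ 0 := by
    intro h
    rw [hρe] at h
    exact hbad ⟨c, hc0, hcA, hcB, by omega⟩
  refine local_bound (v := v) hδ ((natDegree_C_mul_le _ _).trans hAB.dA)
    ((natDegree_C_mul_le _ _).trans hAB.dB) hres' hAi hBi ?_ ?_ hn hint hne hdiff (by omega) hr
  · refine ⟨i, ?_⟩
    rcases hi with h | h
    · left
      rw [coeff_C_mul, h, inv_mul_cancel₀ hc0]
      exact ⟨one_ne_zero, v.o_one⟩
    · right
      rw [coeff_C_mul, h, inv_mul_cancel₀ hc0]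
      exact ⟨one_ne_zero, v.o_one⟩
  · refine ⟨fun j hj => ?_, fun j hj => ?_⟩
    · rw [eval_mul, eval_C]
      exact mul_ne_zero hci0 (hz.ne j hj)
    · rw [eval_mul, eval_mul, eval_C, mul_div_mul_left _ _ hci0]
      exact hz.step j hj

end scaling

section global

variable {k₀ V : Type*} [Field k₀] [Algebra k₀ K]

lemma finite_neg (P : PSys k₀ K V) (x : K) : (Function.support fun v => neg (P.pl v) x).Finite := by
  by_cases hx : x = 0
  · have : (Function.support fun v => neg (P.pl v) x) = ∅ := by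
      rw [Function.support_eq_empty_iff]
      funext v
      simp [neg, hx]
    rw [this]
    exact Set.finite_empty
  · refine (P.ord_finite x hx).subset fun v hv => ?_
    rw [Function.mem_support] at hv
    rw [Set.mem_ofPred_eq]
    intro h0
    apply hv
    unfold neg
    rw [if_neg hx, h0]
    simp

lemma ht_nonneg' (P : PSys k₀ K V) (x : K) : 0 ≤ ht P x :=
  finsum_nonneg fun _ => neg_nonneg' _ _

/-- the global inequality -/
lemma global_bound (P : PSys k₀ K V) {A B : K[X]} {δ k n : ℕ} {z : ℕ → K} (hδ : 2 ≤ δ)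
    (hAB : IsRat A B δ) (hz : Orb A B z n) (hn : δ ^ k + k ≤ n + 1)
    (hne : ∀ i ≤ n, ∀ j ≤ n, z i = z j → i = j) (S : Finset V)
    (hint : ∀ v ∈ S, ∀ i ≤ n, (P.pl v).ge 0 (z i))
    (hdiff : ∀ v ∈ S, ∀ i ≤ n, ∀ j ≤ n, i ≠ j → (P.pl v).o (z i - z j) = 0)
    (hbad : ∀ v ∈ S, ¬ IsGood (P.pl v) δ A B) (hr : δ * δ ^ k ≤ rexp δ k) :
    ((rexp δ k : ℤ) - δ * δ ^ k) * S.card ≤
      (δ - 1) * ∑ l : Fin (δ ^ k), ∑ t : Fin k, ht P (z (l + t)) := by
  classical
  have hres := isRat_res_ne_zero (by omega) hAB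
  have hM0 := det_Mz_ne_zero (by omega) hAB.dA hAB.dB hres hz hn hne
  set D := (Mz z δ k).det with hD
  have hsum := P.sum_ord D hM0
  set T : Finset V := S ∪ (P.ord_finite D hM0).toFinset ∪
    (range (δ ^ k + k)).biUnion fun i => (finite_neg P (z i)).toFinset with hT
  have hTD : Function.support (fun v => (P.pl v).o D) ⊆ (T : Set V) := by
    intro v hv
    rw [hT]
    simp only [coe_union, Set.mem_union, mem_coe, Set.Finite.mem_toFinset]
    exact Or.inl (Or.inr hv)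
  have hTz : ∀ i < δ ^ k + k, Function.support (fun v => neg (P.pl v) (z i)) ⊆ (T : Set V) := by
    intro i hi v hv
    rw [hT]
    simp only [coe_union, Set.mem_union]
    right
    rw [mem_coe, mem_biUnion]
    exact ⟨i, mem_range.mpr hi, by simpa using hv⟩
  rw [finsum_eq_sum_of_support_subset _ hTD] at hsum
  have hht : ∀ i < δ ^ k + k, ht P (z i) = ∑ v ∈ T, neg (P.pl v) (z i) := by
    intro i hi
    rw [ht, finsum_eq_sum_of_support_subset _ (hTz i hi)]
  have hST : S ⊆ T := fun v hv => by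
    rw [hT, mem_union, mem_union]
    exact Or.inl (Or.inl hv)
  have hpt : ∀ v ∈ T, (if v ∈ S then ((rexp δ k : ℤ) - δ * δ ^ k) else 0) -
      (δ - 1) * ∑ l : Fin (δ ^ k), ∑ t : Fin k, neg (P.pl v) (z (l + t)) ≤ (P.pl v).o D := by
    intro v _
    split_ifs with hv
    · have h1 := local_bound' (v := P.pl v) hδ hAB hz hn (hint v hv) hne (hdiff v hv) (hbad v hv) hr
      have h2 : ∑ l : Fin (δ ^ k), ∑ t : Fin k, neg (P.pl v) (z (l + t)) = 0 := by
        refine sum_eq_zero fun l _ => sum_eq_zero fun t _ => neg_of_ge (hint v hv _ ?_)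
        have := l.2
        have := t.2
        omega
      rw [h2, mul_zero, sub_zero]
      exact h1
    · have h1 := DV.ge_le (ge_det_Mz (P.pl v) z δ k) hM0
      have h2 : (∑ l : Fin (δ ^ k), ∑ t : Fin k,
          -(((δ - 1 : ℕ) : ℝ) * neg (P.pl v) (z (l + t)))) =
          (((0 - (δ - 1) * ∑ l : Fin (δ ^ k), ∑ t : Fin k, neg (P.pl v) (z (l + t)) : ℤ)) : ℝ) := by
        push_cast [Nat.cast_sub (by omega : 1 ≤ δ)]
        rw [zero_sub, mul_sum, ← sum_neg_distrib]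
        refine sum_congr rfl fun l _ => ?_
        rw [mul_sum, ← sum_neg_distrib]
      rw [h2] at h1
      exact_mod_cast h1
  have h3 := sum_le_sum hpt
  rw [hsum, sum_sub_distrib, ← sum_filter, filter_mem_eq_inter, inter_eq_right.mpr hST, sum_const,
    nsmul_eq_mul, ← mul_sum, sum_comm] at h3
  have h4 : ∑ l : Fin (δ ^ k), ∑ t : Fin k, ht P (z (l + t)) =
      ∑ l : Fin (δ ^ k), ∑ v ∈ T, ∑ t : Fin k, neg (P.pl v) (z (l + t)) := by
    refine sum_congr rfl fun l _ => ?_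
    rw [sum_comm]
    refine sum_congr rfl fun t _ => ?_
    have := l.2
    have := t.2
    exact hht _ (by omega)
  rw [h4]
  linarith

end global

section numerics

lemma exists_pow_ge (δ : ℕ) (hδ : 2 ≤ δ) (C₁ C₂ : ℝ) : ∃ k : ℕ, C₁ * k + C₂ ≤ (δ : ℝ) ^ k := by
  have h1 : (1 : ℝ) < δ := by exact_mod_cast hδ
  have h2 := tendsto_pow_const_div_const_pow_of_one_lt 1 h1
  set C := |C₁| + |C₂| + 1 with hC
  have hCpos : 0 < C := by positivity
  have h3 := h2.eventually (gt_mem_nhds (show (0 : ℝ) < 1 / C by positivity))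
  obtain ⟨k, hk1, hk2⟩ := (h3.and (Filter.eventually_ge_atTop 1)).exists
  refine ⟨k, ?_⟩
  have hpos : (0 : ℝ) < (δ : ℝ) ^ k := by positivity
  rw [pow_one, div_lt_div_iff₀ hpos hCpos, one_mul] at hk1
  have hk2' : (1 : ℝ) ≤ k := by exact_mod_cast hk2
  have h5 : C₁ * k ≤ |C₁| * k := mul_le_mul_of_nonneg_right (le_abs_self _) (by positivity)
  have h6 : C₂ ≤ |C₂| * k := (le_abs_self _).trans (le_mul_of_one_le_right (abs_nonneg _) hk2')
  have h7 : (k : ℝ) * C = |C₁| * k + |C₂| * k + k := by rw [hC]; ring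
  linarith

end numerics

/-- M2 ENERGY -/
theorem energy (δ : ℕ) (hδ : 2 ≤ δ) (κ : ℝ) (hκ : 0 < κ) : ∃ n : ℕ,
    ∀ {k K V : Type} [Field k] [Field K] [Algebra k K] (P : PSys k K V) (A B : K[X]),
    IsRat A B δ → ∀ z : ℕ → K, Orb A B z n → (∀ i ≤ n, ∀ j ≤ n, z i = z j → i = j) →
    ∀ H : ℝ, (∀ i ≤ n, (ht P (z i) : ℝ) ≤ H) →
    ∀ S : Finset V, (∀ v ∈ S, ∀ i ≤ n, (P.pl v).ge 0 (z i)) →
      (∀ v ∈ S, ∀ i ≤ n, ∀ j ≤ n, i ≠ j → (P.pl v).o (z i - z j) = 0) →
      (∀ v ∈ S, ¬ IsGood (P.pl v) δ A B) → (S.card : ℝ) ≤ κ * H := by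
  set a : ℝ := (δ : ℝ) with ha
  have ha2 : (2 : ℝ) ≤ a := by rw [ha]; exact_mod_cast hδ
  obtain ⟨k, hk⟩ := exists_pow_ge δ hδ (2 * a * (a - 1) ^ 2 / κ + (a - 1))
    (2 + 2 * a ^ 2 * (a - 1))
  refine ⟨δ ^ k + k, ?_⟩
  intro k₀ K V _ _ _ P A B hAB z hz hne H hH S hint hdiff hbad
  set m : ℝ := (δ : ℝ) ^ k with hm
  have hm1 : 1 ≤ m := one_le_pow₀ (by linarith)
  have hrexp : 2 * (a * (a - 1)) * (rexp δ k : ℝ) + m * k * (a - 1) + m = m * m := by
    have h1 := rexp_eq δ (by omega) k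
    have h2 : ((2 * (δ * (δ - 1)) * rexp δ k + δ ^ k * k * (δ - 1) + δ ^ k : ℕ) : ℝ) =
      ((δ ^ k * δ ^ k : ℕ) : ℝ) := by rw [h1]
    push_cast [Nat.cast_sub (by omega : 1 ≤ δ)] at h2
    rw [hm, ha]
    linarith
  have hk0 : (0 : ℝ) ≤ k := by positivity
  have hq : 0 ≤ 2 * a * (a - 1) ^ 2 / κ * k := by positivity
  -- the gain
  have hgain : (a - 1) * (m * k) ≤ κ * ((rexp δ k : ℝ) - a * m) ∧
      0 < (rexp δ k : ℝ) - a * m := by
    have hapos : 0 < 2 * (a * (a - 1)) := by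
      have : 0 < a * (a - 1) := by nlinarith
      linarith
    have h1 : 2 * (a * (a - 1)) * ((rexp δ k : ℝ) - a * m) =
        m * (m - k * (a - 1) - 1 - 2 * a ^ 2 * (a - 1)) := by
      linear_combination hrexp
    have h2 : 2 * a * (a - 1) ^ 2 / κ * k + 1 ≤ m - k * (a - 1) - 1 - 2 * a ^ 2 * (a - 1) := by
      linarith
    constructor
    · have h3 : 2 * a * (a - 1) ^ 2 * k ≤ κ * (m - k * (a - 1) - 1 - 2 * a ^ 2 * (a - 1)) := by
        have h4 := mul_le_mul_of_nonneg_left h2 hκ.le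
        have h5 : κ * (2 * a * (a - 1) ^ 2 / κ * k + 1) = 2 * a * (a - 1) ^ 2 * k + κ := by
          field_simp
        rw [h5] at h4
        linarith
      have h6 : 2 * (a * (a - 1)) * ((a - 1) * (m * k)) ≤
          2 * (a * (a - 1)) * (κ * ((rexp δ k : ℝ) - a * m)) := by
        have e1 : 2 * (a * (a - 1)) * ((a - 1) * (m * k)) = m * (2 * a * (a - 1) ^ 2 * k) := by ring
        have e2 : 2 * (a * (a - 1)) * (κ * ((rexp δ k : ℝ) - a * m)) =
            m * (κ * (m - k * (a - 1) - 1 - 2 * a ^ 2 * (a - 1))) := by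
          linear_combination κ * h1
        rw [e1, e2]
        exact mul_le_mul_of_nonneg_left h3 (by linarith)
      exact le_of_mul_le_mul_left h6 hapos
    · have h3 : 0 < m * (m - k * (a - 1) - 1 - 2 * a ^ 2 * (a - 1)) :=
        mul_pos (by linarith) (by linarith)
      rw [← h1] at h3
      exact (pos_iff_pos_of_mul_pos h3).mp hapos
  have hr : δ * δ ^ k ≤ rexp δ k := by
    have : (a * m : ℝ) ≤ rexp δ k := by linarith [hgain.2]
    rw [ha, hm] at this
    exact_mod_cast this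
  have hgl := global_bound P hδ hAB hz (k := k) (by omega) hne S hint hdiff hbad hr
  have hgl' : ((rexp δ k : ℝ) - a * m) * S.card ≤
      (a - 1) * ∑ l : Fin (δ ^ k), ∑ t : Fin k, (ht P (z (l + t)) : ℝ) := by
    rw [ha, hm]
    exact_mod_cast hgl
  have hsum : ∑ l : Fin (δ ^ k), ∑ t : Fin k, (ht P (z (l + t)) : ℝ) ≤ m * k * H := by
    calc ∑ l : Fin (δ ^ k), ∑ t : Fin k, (ht P (z (l + t)) : ℝ)
        ≤ ∑ l : Fin (δ ^ k), ∑ t : Fin k, H := by
          refine sum_le_sum fun l _ => sum_le_sum fun t _ => hH _ ?_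
          have := l.2
          have := t.2
          omega
      _ = m * k * H := by simp [hm, mul_assoc]
  have hH0 : 0 ≤ H := le_trans (by exact_mod_cast ht_nonneg' P (z 0)) (hH 0 (by omega))
  have h1 : ((rexp δ k : ℝ) - a * m) * S.card ≤ ((rexp δ k : ℝ) - a * m) * (κ * H) := by
    calc ((rexp δ k : ℝ) - a * m) * S.card
        ≤ (a - 1) * ∑ l : Fin (δ ^ k), ∑ t : Fin k, (ht P (z (l + t)) : ℝ) := hgl'
      _ ≤ (a - 1) * (m * k * H) := mul_le_mul_of_nonneg_left hsum (by linarith)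
      _ = ((a - 1) * (m * k)) * H := by ring
      _ ≤ (κ * ((rexp δ k : ℝ) - a * m)) * H := mul_le_mul_of_nonneg_right hgain.1 hH0
      _ = ((rexp δ k : ℝ) - a * m) * (κ * H) := by ring
  exact le_of_mul_le_mul_left h1 hgain.2

end Pool.Agent.Helper98.PS
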