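import Pool.Agent.Helper98.PS.M2
import Pool.Agent.Helper11.PS.DetGain
import Pool.Agent.Helper82.PS.Good

/-!
# Plan S, module M5: interpolation
-/

set_option autoImplicit false

open Finset Polynomial

namespace Pool.Agent.Helper98.PS

open Pool.Agent.Helper33 Pool.Agent.Helper33.PS Pool.Agent.Helper93.RatODE Pool.Agent.Helper55.RD

section linalg

/-- if all maximal minors vanish then the columns are dependent -/
lemma exists_ker {K : Type*} [Field K] {ι : Type*} [Fintype ι] [DecidableEq ι] (N : ℕ)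
    (r : ℕ → ι → K)
    (h : ∀ φ : ι → ℕ, (∀ i, φ i < N) → (Matrix.of fun i c => r (φ i) c).det = 0) :
    ∃ coef : ι → K, coef ≠ 0 ∧ ∀ j < N, ∑ c, coef c * r j c = 0 := by
  classical
  set v : Fin N → (ι → K) := fun j => r j with hv
  by_cases htop : Submodule.span K (Set.range v) = ⊤
  · exfalso
    obtain ⟨κ, a, ha, hspan, hli⟩ := exists_linearIndependent' K v
    rw [htop] at hspan
    let b : Module.Basis κ K (ι → K) := Module.Basis.mk hli (by rw [hspan])
    let e : ι ≃ κ := (Pi.basisFun K ι).indexEquiv b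
    have h1 := h (fun i => (a (e i) : ℕ)) (fun i => (a (e i)).2)
    have h2 : LinearIndependent K (Matrix.of fun i c => r ((a (e i) : Fin N) : ℕ) c).row := by
      have := hli.comp e e.injective
      exact this
    have h3 := Matrix.linearIndependent_rows_iff_isUnit.mp h2
    rw [Matrix.isUnit_iff_isUnit_det, h1] at h3
    exact not_isUnit_zero h3
  · obtain ⟨f, hf, hle⟩ := Submodule.exists_le_ker_of_lt_top _ (lt_top_iff_ne_top.mpr htop)
    refine ⟨fun c => f (Pi.single c 1), ?_, ?_⟩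
    · intro h0
      apply hf
      refine LinearMap.pi_ext' fun c => LinearMap.ext_ring ?_
      have := congrFun h0 c
      simpa using this
    · intro j hj
      have h1 : f (r j) = 0 := hle (Submodule.subset_span ⟨⟨j, hj⟩, rfl⟩)
      rw [← h1]
      conv_rhs => rw [← Finset.univ_sum_single (r j)]
      rw [map_sum]
      refine sum_congr rfl fun c _ => ?_
      have : (Pi.single c (r j c) : ι → K) = r j c • (Pi.single c (1 : K) : ι → K) := by
        rw [← Pi.single_smul, smul_eq_mul, mul_one]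
      rw [this, map_smul, smul_eq_mul, mul_comm]

end linalg

section algebra

variable {K : Type*} [Field K]

/-- the rows of the interpolation matrix -/
noncomputable def rw2 (x y : ℕ → K) (d k : ℕ) (j : ℕ) (c : Fin (d ^ k) × Fin (d ^ k)) : K :=
  (∏ t : Fin k, x (j + t) ^ ((finFunctionFinEquiv.symm c.1 : Fin k → Fin d) t : ℕ)) *
    (∏ t : Fin k, y (j + t) ^ ((finFunctionFinEquiv.symm c.2 : Fin k → Fin d) t : ℕ))

/-- coefficient matrix -/
noncomputable def CM (A B : K[X]) (d k : ℕ) : Matrix (Fin (d ^ k)) (Fin (d ^ k)) K :=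
  Matrix.of fun a (c : Fin (d ^ k)) => (SP A B d k (finFunctionFinEquiv.symm a)).coeff (c : ℕ)

lemma det_CM_ne_zero {A B : K[X]} {d k : ℕ} (hd : 2 ≤ d) (hAB : IsRat A B d) :
    (CM A B d k).det ≠ 0 := by
  have hres := isRat_res_ne_zero (by omega) hAB
  obtain ⟨r, _, h | h⟩ := SP_det' hd hAB.dA hAB.dB k finFunctionFinEquiv
  · rw [CM, h]; exact pow_ne_zero _ hres
  · rw [CM, h]; exact neg_ne_zero.mpr (pow_ne_zero _ hres)

lemma SP_eval_sum {A B : K[X]} {d k : ℕ} (hd : 1 ≤ d) (a : Fin (d ^ k)) (x : K) :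
    (SP A B d k (finFunctionFinEquiv.symm a)).eval x =
      ∑ c : Fin (d ^ k), CM A B d k a c * x ^ (c : ℕ) := by
  rw [eval_eq_sum_range' (natDegree_SP_lt hd _),
    ← Fin.sum_univ_eq_sum_range (fun i => (SP A B d k (finFunctionFinEquiv.symm a)).coeff i *
      x ^ i) (d ^ k)]
  rfl

lemma rw2_eval {A B A' B' : K[X]} {d k n : ℕ} (hAB : IsRat A B d) (hAB' : IsRat A' B' d)
    {x y : ℕ → K} (hx : Orb A B x n) (hy : Orb A' B' y n) (j : ℕ) (hj : j + k ≤ n + 1)
    (c : Fin (d ^ k) × Fin (d ^ k)) :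
    (rowf A B d k (x j) * rowf A' B' d k (y j)) * rw2 x y d k j c =
      (SP A B d k (finFunctionFinEquiv.symm c.1)).eval (x j) *
        (SP A' B' d k (finFunctionFinEquiv.symm c.2)).eval (y j) := by
  rw [SP_eval_orb hAB.dA hAB.dB hx j hj, SP_eval_orb hAB'.dA hAB'.dB hy j hj, rw2]
  ring

open Kronecker in
lemma det_identity2 {A B A' B' : K[X]} {d k n : ℕ} (hd : 1 ≤ d) (hAB : IsRat A B d)
    (hAB' : IsRat A' B' d) {x y : ℕ → K} (hx : Orb A B x n) (hy : Orb A' B' y n)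
    (φ : Fin (d ^ k) × Fin (d ^ k) → ℕ) (hφ : ∀ i, φ i + k ≤ n + 1) :
    (∏ i, (rowf A B d k (x (φ i)) * rowf A' B' d k (y (φ i)))) *
        (Matrix.of fun i c => rw2 x y d k (φ i) c).det =
      (Matrix.of fun i (ab : Fin (d ^ k) × Fin (d ^ k)) =>
        x (φ i) ^ (ab.1 : ℕ) * y (φ i) ^ (ab.2 : ℕ)).det *
      ((CM A B d k) ⊗ₖ (CM A' B' d k)).det := by
  rw [← Matrix.det_mul_column, ← Matrix.det_transpose ((CM A B d k) ⊗ₖ (CM A' B' d k)),
    ← Matrix.det_mul]
  congr 1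
  ext i c
  rw [Matrix.of_apply, Matrix.of_apply, Matrix.mul_apply, rw2_eval hAB hAB' hx hy _ (hφ i),
    SP_eval_sum hd, SP_eval_sum hd, sum_mul_sum, Fintype.sum_prod_type]
  refine sum_congr rfl fun a _ => sum_congr rfl fun b _ => ?_
  rw [Matrix.transpose_apply, Matrix.kroneckerMap_apply, Matrix.of_apply]
  ring

lemma rowf_ne_zero {A B : K[X]} {d k n : ℕ} (hAB : IsRat A B d) {x : ℕ → K} (hx : Orb A B x n)
    (j : ℕ) (hj : j + k ≤ n + 1) : rowf A B d k (x j) ≠ 0 := by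
  refine prod_ne_zero_iff.mpr fun t _ => ?_
  have := t.2
  exact pow_ne_zero _ (iter_orb hAB.dA hAB.dB hx j t (by omega)).1

end algebra

section localbound

variable {K : Type*} [Field K]

lemma ge_det_rw2 (v : DV K) (x y : ℕ → K) (d k : ℕ) (φ : Fin (d ^ k) × Fin (d ^ k) → ℕ) :
    v.ge (∑ i, ∑ t : Fin k, -(((d - 1 : ℕ) : ℝ) * (neg v (x (φ i + t)) + neg v (y (φ i + t)))))
      (Matrix.of fun i c => rw2 x y d k (φ i) c).det := by
  rw [← Matrix.det_transpose]
  refine ge_det _ _ fun c l => ?_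
  rw [Matrix.transpose_apply, Matrix.of_apply, rw2, ← prod_mul_distrib]
  refine ge_prod _ _ _ fun t _ => ?_
  have h1 := ge_neg_pow v (x (φ l + t)) (a := (finFunctionFinEquiv.symm c.1 : Fin k → Fin d) t)
    (b := d - 1) (by have := ((finFunctionFinEquiv.symm c.1 : Fin k → Fin d) t).2; omega)
  have h2 := ge_neg_pow v (y (φ l + t)) (a := (finFunctionFinEquiv.symm c.2 : Fin k → Fin d) t)
    (b := d - 1) (by have := ((finFunctionFinEquiv.symm c.2 : Fin k → Fin d) t).2; omega)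
  refine DV.ge_mono (DV.ge_mul h1 h2) (le_of_eq ?_)
  ring

lemma intP_one (v : DV K) : IntP v (1 : K[X]) := by
  intro i
  rw [coeff_one]
  split_ifs
  · exact DV.ge_one
  · exact DV.ge_zero 0

lemma intP_mul {v : DV K} {P Q : K[X]} (hP : IntP v P) (hQ : IntP v Q) : IntP v (P * Q) := by
  intro i
  rw [coeff_mul]
  refine DV.ge_sum _ _ fun j _ => ?_
  simpa using DV.ge_mul (hP j.1) (hQ j.2)

lemma intP_pow {v : DV K} {P : K[X]} (hP : IntP v P) (n : ℕ) : IntP v (P ^ n) := by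
  induction n with
  | zero => rw [pow_zero]; exact intP_one v
  | succ n ih => rw [pow_succ]; exact intP_mul ih hP

lemma intP_prod {v : DV K} {ι : Type*} (s : Finset ι) (P : ι → K[X]) (hP : ∀ i ∈ s, IntP v (P i)) :
    IntP v (∏ i ∈ s, P i) := by
  classical
  induction s using Finset.induction_on with
  | empty => rw [prod_empty]; exact intP_one v
  | insert a s ha ih =>
    rw [prod_insert ha]
    exact intP_mul (hP a (mem_insert_self a s)) (ih fun i hi => hP i (mem_insert_of_mem hi))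

lemma intP_sum {v : DV K} {ι : Type*} (s : Finset ι) (P : ι → K[X]) (hP : ∀ i ∈ s, IntP v (P i)) :
    IntP v (∑ i ∈ s, P i) := by
  intro j
  rw [finsetSum_coeff]
  exact DV.ge_sum _ _ fun i hi => hP i hi j

lemma intP_C {v : DV K} {a : K} (ha : v.ge 0 a) : IntP v (C a) := by
  intro i
  rw [coeff_C]
  split_ifs
  · exact ha
  · exact DV.ge_zero 0

lemma intP_hev {v : DV K} {P U W : K[X]} (hP : IntP v P) (hU : IntP v U) (hW : IntP v W) (n : ℕ) :
    IntP v (hev P n U W) := by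
  rw [hev]
  refine intP_sum _ _ fun i _ => ?_
  refine intP_mul (intP_mul ?_ (intP_pow hU _)) (intP_pow hW _)
  exact intP_C (hP i)

lemma intP_iter {v : DV K} {A B : K[X]} (hA : IntP v A) (hB : IntP v B) (d t : ℕ) :
    IntP v (iter A B d t).1 ∧ IntP v (iter A B d t).2 := by
  induction t with
  | zero =>
    refine ⟨?_, intP_one v⟩
    intro i
    simp only [iter, coeff_X]
    split_ifs
    · exact DV.ge_one
    · exact DV.ge_zero 0
  | succ t ih => exact ⟨intP_hev hA ih.1 ih.2 d, intP_hev hB ih.1 ih.2 d⟩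

lemma ge_CM {v : DV K} {A B : K[X]} (hA : IntP v A) (hB : IntP v B) (d k : ℕ)
    (a c : Fin (d ^ k)) : v.ge 0 (CM A B d k a c) := by
  rw [CM, Matrix.of_apply]
  have : IntP v (SP A B d k (finFunctionFinEquiv.symm a)) := by
    rw [SP]
    exact intP_prod _ _ fun t _ => intP_mul (intP_pow (intP_iter hA hB d t).1 _)
      (intP_pow (intP_iter hA hB d t).2 _)
  exact this c

lemma o_rowf {v : DV K} {A B : K[X]} {d k n : ℕ} (hAB : IsRat A B d) {x : ℕ → K}
    (hx : Orb A B x n) (hB0 : ∀ j < n, v.o (B.eval (x j)) = 0) (j : ℕ) (hj : j + k ≤ n + 1) :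
    v.o (rowf A B d k (x j)) = 0 := by
  have h0 : ∀ t, j + t ≤ n → v.o ((iter A B d t).2.eval (x j)) = 0 := by
    intro t
    induction t with
    | zero => intro _; simp [iter, v.o_one]
    | succ t ih =>
      intro ht
      rw [o_iter_succ hAB.dA hAB.dB hx j t (by omega), ih (by omega), hB0 _ (by omega)]
      simp
  rw [rowf, v.o_prod]
  · refine sum_eq_zero fun t _ => ?_
    have := t.2
    rw [v.o_pow _ (iter_orb hAB.dA hAB.dB hx j t (by omega)).1, h0 t (by omega), mul_zero]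
  · intro t _
    have := t.2
    exact pow_ne_zero _ (iter_orb hAB.dA hAB.dB hx j t (by omega)).1

lemma ge_of_unit_mul {v : DV K} {c : ℝ} {u D : K} (hu : u ≠ 0) (hu0 : v.o u = 0)
    (h : v.ge c (u * D)) : v.ge c D := by
  by_cases hD : D = 0
  · exact Or.inl hD
  · right
    have := DV.ge_le h (mul_ne_zero hu hD)
    rwa [v.mul _ _ hu hD, hu0, zero_add] at this

open Kronecker in
/-- normalised local gain -/
lemma local_gain {v : DV K} {A B A' B' : K[X]} {d k n : ℕ} (hd : 1 ≤ d) (hAB : IsRat A B d)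
    (hAB' : IsRat A' B' d) {x y : ℕ → K} (hx : Orb A B x n) (hy : Orb A' B' y n)
    (hA : IntP v A) (hB : IntP v B) (hA' : IntP v A') (hB' : IntP v B')
    (hB0 : ∀ j < n, v.o (B.eval (x j)) = 0) (hB0' : ∀ j < n, v.o (B'.eval (y j)) = 0)
    (hint : ∀ j ≤ n, v.ge 0 (x j) ∧ v.ge 0 (y j) ∧ v.ge 1 (y j - x j))
    (φ : Fin (d ^ k) × Fin (d ^ k) → ℕ) (hφ : ∀ i, φ i ≤ n ∧ φ i + k ≤ n + 1) :
    v.ge (((d ^ k : ℕ) : ℝ) * (((d ^ k : ℕ) : ℝ) - 1) * (2 * ((d ^ k : ℕ) : ℝ) - 1) / 6)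
      (Matrix.of fun i c => rw2 x y d k (φ i) c).det := by
  have hrow : ∀ i, rowf A B d k (x (φ i)) * rowf A' B' d k (y (φ i)) ≠ 0 := fun i =>
    mul_ne_zero (rowf_ne_zero hAB hx _ (hφ i).2) (rowf_ne_zero hAB' hy _ (hφ i).2)
  refine ge_of_unit_mul (u := ∏ i, (rowf A B d k (x (φ i)) * rowf A' B' d k (y (φ i))))
    (prod_ne_zero_iff.mpr fun i _ => hrow i) ?_ ?_
  · rw [v.o_prod _ _ fun i _ => hrow i]
    refine sum_eq_zero fun i _ => ?_
    rw [v.mul _ _ (rowf_ne_zero hAB hx _ (hφ i).2) (rowf_ne_zero hAB' hy _ (hφ i).2),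
      o_rowf hAB hx hB0 _ (hφ i).2, o_rowf hAB' hy hB0' _ (hφ i).2, add_zero]
  · rw [det_identity2 hd hAB hAB' hx hy φ fun i => (hφ i).2]
    have h1 := Helper11.PS.det_gain v (d ^ k) (fun i => x (φ i)) (fun i => y (φ i))
      (fun i => (hint _ (hφ i).1).1) (fun i => (hint _ (hφ i).1).2.1)
      (fun i => (hint _ (hφ i).1).2.2)
    have h2 : v.ge 0 ((CM A B d k) ⊗ₖ (CM A' B' d k)).det := by
      have := ge_det (v := v) ((CM A B d k) ⊗ₖ (CM A' B' d k)) (fun _ => 0) fun i j => by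
        rw [Matrix.kroneckerMap_apply]
        simpa using DV.ge_mul (ge_CM hA hB d k i.1 j.1) (ge_CM hA' hB' d k i.2 j.2)
      simpa using this
    have h3 := DV.ge_mul h1 h2
    rwa [add_zero] at h3

lemma isRat_scale {A B : K[X]} {d : ℕ} (hAB : IsRat A B d) {c : K} (hc : c ≠ 0) :
    IsRat (C c * A) (C c * B) d := by
  have hu : IsUnit (C c : K[X]) := isUnit_C.mpr (isUnit_iff_ne_zero.mpr hc)
  refine ⟨?_, (natDegree_C_mul_le _ _).trans hAB.dA, (natDegree_C_mul_le _ _).trans hAB.dB, ?_⟩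
  · exact (isCoprime_mul_unit_left hu A B).mpr hAB.cop
  · rcases hAB.top with h | h
    · left; rw [coeff_C_mul]; exact mul_ne_zero hc h
    · right; rw [coeff_C_mul]; exact mul_ne_zero hc h

lemma orb_scale {A B : K[X]} {n : ℕ} {z : ℕ → K} (hz : Orb A B z n) {c : K} (hc : c ≠ 0) :
    Orb (C c * A) (C c * B) z n := by
  refine ⟨fun j hj => ?_, fun j hj => ?_⟩
  · rw [eval_mul, eval_C]
    exact mul_ne_zero hc (hz.ne j hj)
  · rw [eval_mul, eval_mul, eval_C, mul_div_mul_left _ _ hc]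
    exact hz.step j hj

lemma scaled {v : DV K} {A B : K[X]} {d n : ℕ} (hd : 1 ≤ d) (hAB : IsRat A B d) {x : ℕ → K}
    (hx : Orb A B x n) (hg : IsGood v d A B) (hint : ∀ j ≤ n, v.ge 0 (x j)) :
    ∃ c : K, c ≠ 0 ∧ IntP v (C c * A) ∧ IntP v (C c * B) ∧
      ∀ j < n, v.o ((C c * B).eval (x j)) = 0 := by
  obtain ⟨c, hc, hA, hB, hr⟩ := hg
  have hcge : v.ge (-(v.o c : ℝ)) c⁻¹ := by
    right; rw [v.o_inv c hc]; push_cast; exact le_rfl
  refine ⟨c⁻¹, inv_ne_zero hc, ?_, ?_, ?_⟩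
  · intro j
    rw [coeff_C_mul]
    simpa using DV.ge_mul hcge (hA j)
  · intro j
    rw [coeff_C_mul]
    simpa using DV.ge_mul hcge (hB j)
  · intro j hj
    have h1 := Helper82.PS.o_eval_of_good v hd hAB hc hA hB hr (hint j hj.le) (hx.ne j hj)
      (by rw [← hx.step j hj]; exact hint (j + 1) hj)
    rw [eval_mul, eval_C, v.mul _ _ (inv_ne_zero hc) (hx.ne j hj), h1, v.o_inv c hc]
    omega

lemma local_gain' {v : DV K} {A B A' B' : K[X]} {d k n : ℕ} (hd : 1 ≤ d) (hAB : IsRat A B d)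
    (hAB' : IsRat A' B' d) {x y : ℕ → K} (hx : Orb A B x n) (hy : Orb A' B' y n)
    (hg : IsGood v d A B) (hg' : IsGood v d A' B')
    (hint : ∀ j ≤ n, v.ge 0 (x j) ∧ v.ge 0 (y j) ∧ v.ge 1 (y j - x j))
    (φ : Fin (d ^ k) × Fin (d ^ k) → ℕ) (hφ : ∀ i, φ i ≤ n ∧ φ i + k ≤ n + 1) :
    v.ge (((d ^ k : ℕ) : ℝ) * (((d ^ k : ℕ) : ℝ) - 1) * (2 * ((d ^ k : ℕ) : ℝ) - 1) / 6)
      (Matrix.of fun i c => rw2 x y d k (φ i) c).det := by
  obtain ⟨c, hc, h1, h2, h3⟩ := scaled hd hAB hx hg fun j hj => (hint j hj).1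
  obtain ⟨c', hc', h1', h2', h3'⟩ := scaled hd hAB' hy hg' fun j hj => (hint j hj).2.1
  exact local_gain hd (isRat_scale hAB hc) (isRat_scale hAB' hc') (orb_scale hx hc)
    (orb_scale hy hc') h1 h2 h1' h2' h3 h3' hint φ hφ

end localbound

section global

variable {K k₀ V : Type*} [Field K] [Field k₀] [Algebra k₀ K]

/-- the global inequality -/
lemma global_bound2 (P : PSys k₀ K V) {A B A' B' : K[X]} {d k n : ℕ} (hd : 1 ≤ d)
    (hAB : IsRat A B d) (hAB' : IsRat A' B' d) {x y : ℕ → K} (hx : Orb A B x n)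
    (hy : Orb A' B' y n) (S : Finset V)
    (hg : ∀ v ∈ S, IsGood (P.pl v) d A B ∧ IsGood (P.pl v) d A' B')
    (hint : ∀ v ∈ S, ∀ j ≤ n, (P.pl v).ge 0 (x j) ∧ (P.pl v).ge 0 (y j) ∧
      (P.pl v).ge 1 (y j - x j))
    (φ : Fin (d ^ k) × Fin (d ^ k) → ℕ) (hφ : ∀ i, φ i + k ≤ n)
    (hD : (Matrix.of fun i c => rw2 x y d k (φ i) c).det ≠ 0) :
    (((d ^ k : ℕ) : ℝ) * (((d ^ k : ℕ) : ℝ) - 1) * (2 * ((d ^ k : ℕ) : ℝ) - 1) / 6) * S.card ≤
      ((d - 1 : ℕ) : ℝ) * ∑ i, ∑ t : Fin k,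
        ((ht P (x (φ i + t)) : ℝ) + (ht P (y (φ i + t)) : ℝ)) := by
  classical
  set D := (Matrix.of fun i c => rw2 x y d k (φ i) c).det with hDdef
  have hsum := P.sum_ord D hD
  set T : Finset V := S ∪ (P.ord_finite D hD).toFinset ∪
    (range (n + 1)).biUnion (fun i => (finite_neg P (x i)).toFinset ∪ (finite_neg P (y i)).toFinset)
    with hT
  have hTD : Function.support (fun v => (P.pl v).o D) ⊆ (T : Set V) := by
    intro v hv
    rw [hT]
    simp only [coe_union, Set.mem_union, mem_coe, Set.Finite.mem_toFinset]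
    exact Or.inl (Or.inr hv)
  have hTx : ∀ i ≤ n, Function.support (fun v => neg (P.pl v) (x i)) ⊆ (T : Set V) := by
    intro i hi v hv
    rw [hT]
    simp only [coe_union, Set.mem_union]
    right
    rw [mem_coe, mem_biUnion]
    exact ⟨i, mem_range.mpr (by omega), mem_union_left _ (by simpa using hv)⟩
  have hTy : ∀ i ≤ n, Function.support (fun v => neg (P.pl v) (y i)) ⊆ (T : Set V) := by
    intro i hi v hv
    rw [hT]
    simp only [coe_union, Set.mem_union]
    right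
    rw [mem_coe, mem_biUnion]
    exact ⟨i, mem_range.mpr (by omega), mem_union_right _ (by simpa using hv)⟩
  rw [finsum_eq_sum_of_support_subset _ hTD] at hsum
  have hhx : ∀ i ≤ n, ht P (x i) = ∑ v ∈ T, neg (P.pl v) (x i) := by
    intro i hi
    rw [ht, finsum_eq_sum_of_support_subset _ (hTx i hi)]
  have hhy : ∀ i ≤ n, ht P (y i) = ∑ v ∈ T, neg (P.pl v) (y i) := by
    intro i hi
    rw [ht, finsum_eq_sum_of_support_subset _ (hTy i hi)]
  have hST : S ⊆ T := fun v hv => by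
    rw [hT, mem_union, mem_union]
    exact Or.inl (Or.inl hv)
  set g : ℝ := (((d ^ k : ℕ) : ℝ) * (((d ^ k : ℕ) : ℝ) - 1) * (2 * ((d ^ k : ℕ) : ℝ) - 1) / 6)
    with hgdef
  have hpt : ∀ v ∈ T, (if v ∈ S then g else 0) -
      ((d - 1 : ℕ) : ℝ) * ∑ i, ∑ t : Fin k,
        ((neg (P.pl v) (x (φ i + t)) : ℝ) + (neg (P.pl v) (y (φ i + t)) : ℝ)) ≤
        ((P.pl v).o D : ℝ) := by
    intro v _
    split_ifs with hv
    · have h1 := DV.ge_le (local_gain' (v := P.pl v) hd hAB hAB' hx hy (hg v hv).1 (hg v hv).2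
        (hint v hv) φ fun i => ⟨by have := hφ i; omega, by have := hφ i; omega⟩) hD
      have h2 : 0 ≤ ((d - 1 : ℕ) : ℝ) * ∑ i, ∑ t : Fin k,
        ((neg (P.pl v) (x (φ i + t)) : ℝ) + (neg (P.pl v) (y (φ i + t)) : ℝ)) := by
        refine mul_nonneg (Nat.cast_nonneg _) (sum_nonneg fun i _ => sum_nonneg fun t _ => ?_)
        have h3 := neg_nonneg' (P.pl v) (x (φ i + t))
        have h4 := neg_nonneg' (P.pl v) (y (φ i + t))
        have h3' : (0 : ℝ) ≤ neg (P.pl v) (x (φ i + t)) := by exact_mod_cast h3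
        have h4' : (0 : ℝ) ≤ neg (P.pl v) (y (φ i + t)) := by exact_mod_cast h4
        linarith
      linarith
    · have h1 := DV.ge_le (ge_det_rw2 (P.pl v) x y d k φ) hD
      have h2 : (∑ i, ∑ t : Fin k, -(((d - 1 : ℕ) : ℝ) *
          ((neg (P.pl v) (x (φ i + t)) : ℝ) + (neg (P.pl v) (y (φ i + t)) : ℝ)))) =
          0 - ((d - 1 : ℕ) : ℝ) * ∑ i, ∑ t : Fin k,
          ((neg (P.pl v) (x (φ i + t)) : ℝ) + (neg (P.pl v) (y (φ i + t)) : ℝ)) := by
        rw [zero_sub, mul_sum, ← sum_neg_distrib]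
        refine sum_congr rfl fun i _ => ?_
        rw [mul_sum, ← sum_neg_distrib]
      rw [← h2]
      exact h1
  have h3 := sum_le_sum hpt
  have hsum' : ∑ v ∈ T, ((P.pl v).o D : ℝ) = 0 := by exact_mod_cast hsum
  rw [hsum', sum_sub_distrib, ← sum_filter, filter_mem_eq_inter, inter_eq_right.mpr hST, sum_const,
    nsmul_eq_mul, ← mul_sum, sum_comm] at h3
  have h4 : ∑ i, ∑ t : Fin k, ((ht P (x (φ i + t)) : ℝ) + (ht P (y (φ i + t)) : ℝ)) =
      ∑ i, ∑ v ∈ T, ∑ t : Fin k,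
        ((neg (P.pl v) (x (φ i + t)) : ℝ) + (neg (P.pl v) (y (φ i + t)) : ℝ)) := by
    refine sum_congr rfl fun i _ => ?_
    rw [sum_comm]
    refine sum_congr rfl fun t _ => ?_
    have := t.2
    have := hφ i
    rw [hhx _ (by omega), hhy _ (by omega), sum_add_distrib]
    push_cast
    rfl
  rw [h4]
  linarith

end global

/-- M5 INTERPOLATION -/
theorem interp (d : ℕ) (hd : 2 ≤ d) (c : ℝ) (hc : 0 < c) : ∃ m n₀ : ℕ,
    ∀ {k E W : Type} [Field k] [Field E] [Algebra k E] (Q : PSys k E W) (A B A' B' : E[X]),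
    IsRat A B d → IsRat A' B' d → ∀ n : ℕ, n₀ ≤ n → ∀ x y : ℕ → E, Orb A B x n → Orb A' B' y n →
    ∀ H : ℝ, (∀ j ≤ n, (ht Q (x j) : ℝ) ≤ H) → (∀ j ≤ n, (ht Q (y j) : ℝ) ≤ H) →
    ∀ S : Finset W, 1 ≤ S.card → c * H ≤ S.card →
      (∀ w ∈ S, IsGood (Q.pl w) d A B ∧ IsGood (Q.pl w) d A' B') →
      (∀ w ∈ S, ∀ j ≤ n, (Q.pl w).ge 0 (x j) ∧ (Q.pl w).ge 0 (y j) ∧ (Q.pl w).ge 1 (y j - x j)) →
    ∃ p : Polynomial (Polynomial E), p ≠ 0 ∧ p.natDegree < m ∧ (∀ i, (p.coeff i).natDegree < m) ∧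
      ∀ j, j + m ≤ n → (p.eval (C (y j))).eval (x j) = 0 := by
  have hd' : (1 : ℝ) ≤ ((d - 1 : ℕ) : ℝ) := by
    have : 1 ≤ d - 1 := by omega
    exact_mod_cast this
  obtain ⟨k, hk⟩ := exists_pow_ge d hd (16 * ((d - 1 : ℕ) : ℝ) / c) 2
  set M : ℝ := ((d ^ k : ℕ) : ℝ) with hM
  have hMk : 16 * ((d - 1 : ℕ) : ℝ) / c * k + 2 ≤ M := by
    rw [hM]; push_cast; exact_mod_cast hk
  have hk0 : (0 : ℝ) ≤ k := Nat.cast_nonneg k
  have hM2 : 2 ≤ M := by
    have : 0 ≤ 16 * ((d - 1 : ℕ) : ℝ) / c * k := by positivity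
    linarith
  have hkM : k ≤ d ^ k := (Nat.lt_pow_self (by omega)).le
  have hMpos : 0 < d ^ k := by positivity
  refine ⟨d ^ k, 0, ?_⟩
  intro k₀ E W _ _ _ Q A B A' B' hAB hAB' n _ x y hx hy H hHx hHy S hS hcH hg hint
  -- all minors vanish
  have hminor : ∀ φ : Fin (d ^ k) × Fin (d ^ k) → ℕ, (∀ i, φ i < n + 1 - d ^ k) →
      (Matrix.of fun i c => rw2 x y d k (φ i) c).det = 0 := by
    intro φ hφ
    by_contra hD
    have h1 := global_bound2 Q (by omega : 1 ≤ d) hAB hAB' hx hy S hg hint φ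
      (fun i => by have := hφ i; omega) hD
    have hsum : ∑ i : Fin (d ^ k) × Fin (d ^ k), ∑ t : Fin k,
        ((ht Q (x (φ i + t)) : ℝ) + (ht Q (y (φ i + t)) : ℝ)) ≤ M * M * (k * (2 * H)) := by
      calc ∑ i : Fin (d ^ k) × Fin (d ^ k), ∑ t : Fin k,
            ((ht Q (x (φ i + t)) : ℝ) + (ht Q (y (φ i + t)) : ℝ))
          ≤ ∑ i : Fin (d ^ k) × Fin (d ^ k), ∑ t : Fin k, (2 * H) := by
            refine sum_le_sum fun i _ => sum_le_sum fun t _ => ?_
            have := hφ i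
            have := t.2
            have e1 := hHx (φ i + t) (by omega)
            have e2 := hHy (φ i + t) (by omega)
            linarith
        _ = M * M * (k * (2 * H)) := by
            simp [hM]
    have hcard : (1 : ℝ) ≤ S.card := by exact_mod_cast hS
    have hH : H ≤ S.card / c := by
      rw [le_div_iff₀ hc]; linarith
    have h2 : M * (M - 1) * (2 * M - 1) / 6 * S.card ≤
        ((d - 1 : ℕ) : ℝ) * (M * M * (k * (2 * (S.card / c)))) := by
      refine h1.trans (mul_le_mul_of_nonneg_left (hsum.trans ?_) (by linarith))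
      refine mul_le_mul_of_nonneg_left ?_ (by positivity)
      refine mul_le_mul_of_nonneg_left ?_ hk0
      linarith
    have h3 : M * (M - 1) * (2 * M - 1) / 6 ≤ ((d - 1 : ℕ) : ℝ) * (M * M * (k * (2 / c))) := by
      have e1 : ((d - 1 : ℕ) : ℝ) * (M * M * (k * (2 * (S.card / c)))) =
          (((d - 1 : ℕ) : ℝ) * (M * M * (k * (2 / c)))) * S.card := by ring
      rw [e1] at h2
      exact le_of_mul_le_mul_right h2 (by linarith)
    have h4 : M * M * M / 8 ≤ M * (M - 1) * (2 * M - 1) / 6 := by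
      have h5 : 0 ≤ M * ((M - 2) * (10 * M - 4) + 0) := by
        refine mul_nonneg (by linarith) ?_
        have : 0 ≤ (M - 2) * (10 * M - 4) := mul_nonneg (by linarith) (by linarith)
        linarith
      nlinarith
    have h6 : ((d - 1 : ℕ) : ℝ) * (M * M * (k * (2 / c))) = M * M * ((16 * ((d - 1 : ℕ) : ℝ) / c * k) / 8) := by
      ring
    rw [h6] at h3
    have h7 : M * M * (M / 8) ≤ M * M * ((16 * ((d - 1 : ℕ) : ℝ) / c * k) / 8) := by linarith
    have h8 := le_of_mul_le_mul_left h7 (by positivity)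
    linarith
  obtain ⟨coef, hne, hker⟩ := exists_ker (n + 1 - d ^ k) (fun j c => rw2 x y d k j c) hminor
  set p : Polynomial (Polynomial E) := ∑ c : Fin (d ^ k) × Fin (d ^ k),
    C (C (coef c) * SP A B d k (finFunctionFinEquiv.symm c.1)) *
      (SP A' B' d k (finFunctionFinEquiv.symm c.2)).map C with hp
  have hcoeff : ∀ i, p.coeff i = ∑ c : Fin (d ^ k) × Fin (d ^ k),
      (C (coef c) * SP A B d k (finFunctionFinEquiv.symm c.1)) *
        C ((SP A' B' d k (finFunctionFinEquiv.symm c.2)).coeff i) := by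
    intro i
    rw [hp, finsetSum_coeff]
    refine sum_congr rfl fun c _ => ?_
    rw [coeff_C_mul, coeff_map]
  refine ⟨p, ?_, ?_, ?_, ?_⟩
  · intro hp0
    apply hne
    refine Matrix.eq_zero_of_vecMul_eq_zero
      (M := Matrix.kroneckerMap (fun a b => a * b) (CM A B d k) (CM A' B' d k)) ?_ ?_
    · rw [Matrix.det_kronecker]
      exact mul_ne_zero (pow_ne_zero _ (det_CM_ne_zero hd hAB))
        (pow_ne_zero _ (det_CM_ne_zero hd hAB'))
    · funext ⟨a, b⟩
      have h1 : (p.coeff (b : ℕ)).coeff (a : ℕ) = 0 := by rw [hp0]; simp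
      rw [hcoeff, finsetSum_coeff] at h1
      rw [Pi.zero_apply, ← h1, Matrix.vecMul, dotProduct]
      refine sum_congr rfl fun c _ => ?_
      rw [coeff_mul_C, coeff_C_mul, Matrix.kroneckerMap_apply, CM, CM, Matrix.of_apply,
        Matrix.of_apply, mul_assoc]
  · have h1 : p.natDegree ≤ d ^ k - 1 := by
      rw [hp]
      refine natDegree_sum_le_of_forall_le _ _ fun c _ => ?_
      refine (natDegree_C_mul_le _ _).trans (natDegree_map_le.trans ?_)
      have := natDegree_SP_lt (A := A') (B := B') (d := d) (k := k) (by omega)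
        (finFunctionFinEquiv.symm c.2)
      omega
    omega
  · intro i
    have h1 : (p.coeff i).natDegree ≤ d ^ k - 1 := by
      rw [hcoeff]
      refine natDegree_sum_le_of_forall_le _ _ fun c _ => ?_
      refine (natDegree_mul_C_le _ _).trans ((natDegree_C_mul_le _ _).trans ?_)
      have := natDegree_SP_lt (A := A) (B := B) (d := d) (k := k) (by omega)
        (finFunctionFinEquiv.symm c.1)
      omega
    omega
  · intro j hj
    have h1 := hker j (by omega)
    have h2 : (p.eval (C (y j))).eval (x j) = ∑ c : Fin (d ^ k) × Fin (d ^ k),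
        coef c * ((SP A B d k (finFunctionFinEquiv.symm c.1)).eval (x j) *
          (SP A' B' d k (finFunctionFinEquiv.symm c.2)).eval (y j)) := by
      rw [hp, eval_finsetSum, eval_finsetSum]
      refine sum_congr rfl fun c _ => ?_
      rw [eval_mul, eval_C, eval_map_apply, eval_mul, eval_C, eval_mul, eval_C]
      ring
    rw [h2]
    have h3 : ∑ c : Fin (d ^ k) × Fin (d ^ k),
        coef c * ((SP A B d k (finFunctionFinEquiv.symm c.1)).eval (x j) *
          (SP A' B' d k (finFunctionFinEquiv.symm c.2)).eval (y j)) =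
        (rowf A B d k (x j) * rowf A' B' d k (y j)) *
          ∑ c : Fin (d ^ k) × Fin (d ^ k), coef c * rw2 x y d k j c := by
      rw [mul_sum]
      refine sum_congr rfl fun c _ => ?_
      rw [← rw2_eval hAB hAB' hx hy j (by omega) c]
      ring
    rw [h3, h1, mul_zero]

end Pool.Agent.Helper98.PS
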