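import Pool.Agent.Helper93.RatHev
import Pool.Agent.Helper55.RD.Res

/-!
# Plan S, module K1: the determinant of the products of iterates is a power of the resultant
-/

set_option autoImplicit false

open Finset Polynomial

namespace Pool.Agent.Helper98.PS

open Pool.Agent.Helper93.RatODE Pool.Agent.Helper55.RD

variable {K : Type*} [Field K]

/-- the polynomials of the determinants of sections 2 and 3 -/
noncomputable def SP {K : Type*} [Field K] (A B : K[X]) (d k : ℕ) (a : Fin k → Fin d) : K[X] :=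
  ∏ t : Fin k, (iter A B d t).1 ^ (a t : ℕ) * (iter A B d t).2 ^ (d - 1 - (a t : ℕ))

section cdet

/-- coefficient determinant -/
noncomputable def cdet {ι : Type*} [Fintype ι] [DecidableEq ι] (p : ι → K[X]) (e : ι → ℕ) : K :=
  (Matrix.of fun i j => (p i).coeff (e j)).det

variable {ι κ : Type*} [Fintype ι] [DecidableEq ι] [Fintype κ] [DecidableEq κ]

lemma cdet_comp (φ : κ ≃ ι) (p : ι → K[X]) (e : ι → ℕ) :
    cdet (fun i => p (φ i)) (fun i => e (φ i)) = cdet p e :=
  Matrix.det_submatrix_equiv_self φ (Matrix.of fun i j => (p i).coeff (e j))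

lemma cdet_sq_perm (p : ι → K[X]) {N N' : ℕ} (e : ι ≃ Fin N) (e' : ι ≃ Fin N') :
    cdet p (fun i => (e i : ℕ)) ^ 2 = cdet p (fun i => (e' i : ℕ)) ^ 2 := by
  have hN : N = N' := by
    have := Fintype.card_congr (e.symm.trans e')
    simpa using this
  subst hN
  have h : (Matrix.of fun i j => (p i).coeff (e' j : ℕ)) =
      (Matrix.of fun i j => (p i).coeff (e j : ℕ)).submatrix id (e'.trans e.symm) := by
    ext i j
    simp
  rw [cdet, cdet, h, Matrix.det_permute', mul_pow]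
  have h2 : (((Equiv.Perm.sign (e'.trans e.symm) : ℤˣ) : ℤ) : K) ^ 2 = 1 := by
    rw [← Int.cast_pow, ← Units.val_pow_eq_pow_val, Int.units_sq]
    simp
  rw [h2, one_mul]

/-- the square of the coefficient determinant -/
noncomputable def csq (p : ι → K[X]) : K := cdet p (fun i => (Fintype.equivFin ι i : ℕ)) ^ 2

lemma csq_eq (p : ι → K[X]) {N : ℕ} (e : ι ≃ Fin N) : csq p = cdet p (fun i => (e i : ℕ)) ^ 2 :=
  cdet_sq_perm p _ e

lemma csq_comp (φ : κ ≃ ι) (p : ι → K[X]) : csq (fun i => p (φ i)) = csq p := by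
  rw [csq_eq (fun i => p (φ i)) (φ.trans (Fintype.equivFin ι)), csq]
  exact congrArg (· ^ 2) (cdet_comp φ p (fun i => (Fintype.equivFin ι i : ℕ)))

lemma csq_base (M : Matrix ι ι K) (p q : ι → K[X]) (h : ∀ i, p i = ∑ j, C (M i j) * q j) :
    csq p = M.det ^ 2 * csq q := by
  have h1 : (Matrix.of fun i j => (p i).coeff (Fintype.equivFin ι j : ℕ)) =
      M * (Matrix.of fun i j => (q i).coeff (Fintype.equivFin ι j : ℕ)) := by
    ext i j
    rw [Matrix.mul_apply, Matrix.of_apply, h i, finsetSum_coeff]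
    simp
  rw [csq, csq, cdet, h1, Matrix.det_mul, mul_pow]
  rfl

lemma csq_sylvester {f g : K[X]} {m n : ℕ} (hf : f.natDegree ≤ m) (hg : g.natDegree ≤ n) :
    csq (Sum.elim (fun i : Fin m => X ^ (i : ℕ) * g) (fun i : Fin n => X ^ (i : ℕ) * f)) =
      resultant f g m n ^ 2 := by
  rw [csq_eq _ finSumFinEquiv, cdet, resultant, ← Matrix.det_transpose (sylvester f g m n)]
  congr 1
  rw [← Matrix.det_submatrix_equiv_self finSumFinEquiv (sylvester f g m n).transpose]
  congr 1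
  ext i j
  rw [Matrix.submatrix_apply, Matrix.transpose_apply, Matrix.of_apply]
  rcases i with i | i
  · rw [Sum.elim_inl, coeff_X_pow_mul', finSumFinEquiv_apply_left, sylvester, Matrix.of_apply,
      Fin.addCases_left]
    by_cases h1 : (i : ℕ) ≤ (finSumFinEquiv j : ℕ)
    · by_cases h2 : (finSumFinEquiv j : ℕ) ≤ i + n
      · rw [if_pos h1, if_pos ⟨h1, h2⟩]
      · rw [if_pos h1, if_neg (fun h => h2 h.2), coeff_eq_zero_of_natDegree_lt (by omega)]
    · rw [if_neg h1, if_neg (fun h => h1 h.1)]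
  · rw [Sum.elim_inr, coeff_X_pow_mul', finSumFinEquiv_apply_right, sylvester, Matrix.of_apply,
      Fin.addCases_right]
    by_cases h1 : (i : ℕ) ≤ (finSumFinEquiv j : ℕ)
    · by_cases h2 : (finSumFinEquiv j : ℕ) ≤ i + m
      · rw [if_pos h1, if_pos ⟨h1, h2⟩]
      · rw [if_pos h1, if_neg (fun h => h2 h.2), coeff_eq_zero_of_natDegree_lt (by omega)]
    · rw [if_neg h1, if_neg (fun h => h1 h.1)]

lemma csq_isEmpty [IsEmpty ι] (p : ι → K[X]) : csq p = 1 := by
  rw [csq, cdet, Matrix.det_isEmpty, one_pow]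

end cdet

section step1

/-- the family `X^c A^b B^(m-1-b)` -/
noncomputable def TF (A B : K[X]) (d m : ℕ) (bc : Fin m × Fin d) : K[X] :=
  A ^ (bc.1 : ℕ) * B ^ (m - 1 - (bc.1 : ℕ)) * X ^ (bc.2 : ℕ)

lemma natDegree_TF {A B : K[X]} {d m : ℕ} (hA : A.natDegree ≤ d) (hB : B.natDegree ≤ d)
    (bc : Fin m × Fin d) : (TF A B d m bc).natDegree < m * d := by
  obtain ⟨b, c⟩ := bc
  have h1 : (A ^ (b : ℕ)).natDegree ≤ b * d := natDegree_pow_le_of_le _ hA
  have h2 : (B ^ (m - 1 - (b : ℕ))).natDegree ≤ (m - 1 - b) * d := natDegree_pow_le_of_le _ hB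
  have h3 : (X ^ (c : ℕ) : K[X]).natDegree ≤ c := natDegree_X_pow_le _
  have h4 := natDegree_mul_le_of_le (natDegree_mul_le_of_le h1 h2) h3
  have hb := b.2
  have hc := c.2
  have h5 : (b : ℕ) * d + (m - 1 - b) * d = (m - 1) * d := by
    rw [← add_mul]; congr 1; omega
  have h6 : (m - 1) * d + d = m * d := by
    nth_rewrite 2 [← one_mul d]
    rw [← add_mul]; congr 1; omega
  unfold TF
  simp only
  omega

lemma eq_sum_coeff {p : K[X]} {ι : Type*} [Fintype ι] {N : ℕ} (e : ι ≃ Fin N) (hp : p.natDegree < N) :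
    p = ∑ j, C (p.coeff (e j : ℕ)) * X ^ (e j : ℕ) := by
  rw [Equiv.sum_comp e (fun j : Fin N => C (p.coeff (j : ℕ)) * X ^ (j : ℕ)),
    Fin.sum_univ_eq_sum_range (fun j : ℕ => C (p.coeff j) * X ^ j) N]
  exact as_sum_range_C_mul_X_pow' p hp

lemma resultant_pow_left' {A B : K[X]} {d : ℕ} (hA : A.natDegree ≤ d) (hB : B.natDegree ≤ d)
    (m : ℕ) : resultant (A ^ m) B (m * d) d = resultant A B d d ^ m := by
  induction m with
  | zero => simp
  | succ m ih =>
    rw [pow_succ, add_mul, one_mul, resultant_mul_left' (natDegree_pow_le_of_le m hA) hA hB, ih,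
      pow_succ]

/-- peeling off the last block -/
def peel (m d : ℕ) : (Fin m × Fin d) ⊕ Fin d ≃ Fin (m + 1) × Fin d where
  toFun := Sum.elim (fun bc => (bc.1.castSucc, bc.2)) (fun c => (Fin.last m, c))
  invFun bc := Fin.lastCases (motive := fun _ => (Fin m × Fin d) ⊕ Fin d) (Sum.inr bc.2)
    (fun b => Sum.inl (b, bc.2)) bc.1
  left_inv x := by
    rcases x with ⟨b, c⟩ | c <;> simp
  right_inv bc := by
    obtain ⟨b, c⟩ := bc
    induction b using Fin.lastCases <;> simp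

lemma csq_TF_succ {A B : K[X]} {d : ℕ} (hA : A.natDegree ≤ d) (hB : B.natDegree ≤ d) (m : ℕ) :
    csq (TF A B d (m + 1)) = csq (TF A B d m) * (resultant A B d d ^ m) ^ 2 := by
  set q : (Fin m × Fin d) ⊕ Fin d → K[X] :=
    Sum.elim (fun bc => X ^ (finProdFinEquiv bc : ℕ) * B) (fun c => X ^ (c : ℕ) * A ^ m) with hq
  have h1 : csq q = (resultant A B d d ^ m) ^ 2 := by
    rw [← resultant_pow_left' hA hB, ← csq_sylvester (natDegree_pow_le_of_le m hA) hB,
      ← csq_comp (Equiv.sumCongr finProdFinEquiv (Equiv.refl (Fin d)))]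
    congr 1
    funext x
    rcases x with x | x <;> rfl
  set M : Matrix (Fin m × Fin d) (Fin m × Fin d) K :=
    Matrix.of fun i j => (TF A B d m i).coeff (finProdFinEquiv j : ℕ) with hM
  have h2 : M.det ^ 2 = csq (TF A B d m) := by
    rw [csq_eq _ finProdFinEquiv]
    rfl
  rw [← csq_comp (peel m d), csq_base (Matrix.fromBlocks M 0 0 1) _ q, h1,
    Matrix.det_fromBlocks_zero₂₁, Matrix.det_one, mul_one, h2]
  intro i
  rcases i with ⟨b, c⟩ | c
  · rw [Fintype.sum_sum_type]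
    have e1 : TF A B d (m + 1) (peel m d (Sum.inl (b, c))) = TF A B d m (b, c) * B := by
      have hb := b.2
      simp only [TF, peel, Equiv.coe_fn_mk, Sum.elim_inl, Fin.val_castSucc]
      rw [show m + 1 - 1 - (b : ℕ) = m - 1 - (b : ℕ) + 1 by omega, pow_succ]
      ring
    rw [e1]
    conv_lhs => rw [eq_sum_coeff finProdFinEquiv (natDegree_TF hA hB (b, c)), sum_mul]
    simp [hM, hq, mul_assoc]
  · rw [Fintype.sum_sum_type]
    have e1 : TF A B d (m + 1) (peel m d (Sum.inr c)) = X ^ (c : ℕ) * A ^ m := by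
      simp only [TF, peel, Equiv.coe_fn_mk, Sum.elim_inr, Fin.val_last]
      rw [show m + 1 - 1 - m = 0 by omega, pow_zero, mul_one, mul_comm]
    rw [e1]
    simp [hq, Matrix.one_apply]

lemma csq_TF {A B : K[X]} {d : ℕ} (hA : A.natDegree ≤ d) (hB : B.natDegree ≤ d) (m : ℕ) :
    csq (TF A B d m) = (resultant A B d d ^ (∑ i ∈ range m, i)) ^ 2 := by
  induction m with
  | zero => rw [csq_isEmpty]; simp
  | succ m ih =>
    rw [csq_TF_succ hA hB, ih, sum_range_succ, pow_add, mul_pow]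

end step1

section step2

lemma hev_eq_hom {S : Type*} [CommRing S] [Algebra K S] (P : K[X]) (n : ℕ) (u w : S) :
    hev P n u w = hom n P u w := by
  rw [hev, hom, Finset.Nat.sum_antidiagonal_eq_sum_range_succ_mk]

lemma iter_comp {A B : K[X]} {d : ℕ} (hA : A.natDegree ≤ d) (hB : B.natDegree ≤ d) (t : ℕ) :
    iter A B d (t + 1) = (hom (d ^ t) (iter A B d t).1 A B, hom (d ^ t) (iter A B d t).2 A B) := by
  have h0 : ∀ P : K[X], P.natDegree ≤ d → hom d P (X : K[X]) 1 = P := by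
    intro P hP
    rw [← hev_eq_hom, hev, Finset.sum_congr rfl (g := fun j => C (P.coeff j) * X ^ j)
      (fun j _ => by rw [one_pow, mul_one]; rfl)]
    exact (as_sum_range_C_mul_X_pow' P (by omega)).symm
  induction t with
  | zero =>
    simp only [iter, pow_zero, hom_one_deg, hev_eq_hom, h0 A hA, h0 B hB]
    simp [coeff_one]
  | succ t ih =>
    have h1 : (iter A B d (t + 1 + 1)).1 =
      hom d A (iter A B d (t + 1)).1 (iter A B d (t + 1)).2 := (hev_eq_hom _ _ _ _)
    have h2 : (iter A B d (t + 1 + 1)).2 =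
      hom d B (iter A B d (t + 1)).1 (iter A B d (t + 1)).2 := (hev_eq_hom _ _ _ _)
    have h3 : (iter A B d (t + 1)).1 = hom d A (iter A B d t).1 (iter A B d t).2 :=
      (hev_eq_hom _ _ _ _)
    have h4 : (iter A B d (t + 1)).2 = hom d B (iter A B d t).1 (iter A B d t).2 :=
      (hev_eq_hom _ _ _ _)
    have h5 := hom_hom (A := K[X]) A (iter_natDegree (P := A) (Q := B) (d := d) t).1
      (iter_natDegree (P := A) (Q := B) (d := d) t).2 A B (n := d)
    have h6 := hom_hom (A := K[X]) B (iter_natDegree (P := A) (Q := B) (d := d) t).1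
      (iter_natDegree (P := A) (Q := B) (d := d) t).2 A B (n := d)
    rw [Prod.ext_iff]
    refine ⟨?_, ?_⟩
    · rw [h1]
      conv_lhs => rw [ih]
      rw [h3, pow_succ, mul_comm (d ^ t) d, h5]
    · rw [h2]
      conv_lhs => rw [ih]
      rw [h4, pow_succ, mul_comm (d ^ t) d, h6]

lemma hom_prod {S : Type*} [CommRing S] [Algebra K S] {ι : Type*} (s : Finset ι) (n : ι → ℕ)
    (f : ι → K[X]) (hf : ∀ i ∈ s, (f i).natDegree ≤ n i) (a b : S) :
    hom (∑ i ∈ s, n i) (∏ i ∈ s, f i) a b = ∏ i ∈ s, hom (n i) (f i) a b := by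
  classical
  induction s using Finset.induction_on with
  | empty => simp [hom_zero_deg]
  | insert i s hi ih =>
    rw [sum_insert hi, prod_insert hi, prod_insert hi,
      hom_mul (hf i (mem_insert_self i s))
        ((natDegree_prod_le _ _).trans (sum_le_sum fun j hj => hf j (mem_insert_of_mem hj))),
      ih fun j hj => hf j (mem_insert_of_mem hj)]

lemma sum_pow_sub_one (d k : ℕ) (hd : 1 ≤ d) : ∑ t : Fin k, (d - 1) * d ^ (t : ℕ) = d ^ k - 1 := by
  have h : ∀ k : ℕ, ∑ t ∈ range k, (d - 1) * d ^ t + 1 = d ^ k := by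
    intro k
    induction k with
    | zero => simp
    | succ k ih =>
      rw [sum_range_succ, add_right_comm, ih, pow_succ]
      nth_rewrite 1 [← one_mul (d ^ k)]
      rw [← add_mul, mul_comm]
      congr 1
      omega
  rw [Fin.sum_univ_eq_sum_range (fun t => (d - 1) * d ^ t) k]
  have := h k
  omega

lemma natDegree_SP_factor {A B : K[X]} {d k : ℕ} (a : Fin k → Fin d) (t : Fin k) :
    ((iter A B d t).1 ^ (a t : ℕ) * (iter A B d t).2 ^ (d - 1 - (a t : ℕ))).natDegree ≤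
      (d - 1) * d ^ (t : ℕ) := by
  have h1 : ((iter A B d t).1 ^ (a t : ℕ)).natDegree ≤ a t * d ^ (t : ℕ) :=
    natDegree_pow_le_of_le _ (iter_natDegree (t : ℕ)).1
  have h2 : ((iter A B d t).2 ^ (d - 1 - (a t : ℕ))).natDegree ≤ (d - 1 - a t) * d ^ (t : ℕ) :=
    natDegree_pow_le_of_le _ (iter_natDegree (t : ℕ)).2
  refine (natDegree_mul_le_of_le h1 h2).trans (le_of_eq ?_)
  rw [← add_mul]
  congr 1
  have := (a t).2
  omega

/-- degree bound -/
theorem natDegree_SP_lt {A B : K[X]} {d k : ℕ} (hd : 1 ≤ d) (a : Fin k → Fin d) :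
    (SP A B d k a).natDegree < d ^ k := by
  have h1 : (SP A B d k a).natDegree ≤ ∑ t : Fin k, (d - 1) * d ^ (t : ℕ) :=
    (natDegree_prod_le _ _).trans (sum_le_sum fun t _ => natDegree_SP_factor a t)
  rw [sum_pow_sub_one d k hd] at h1
  have : 0 < d ^ k := by positivity
  omega

lemma SP_cons {A B : K[X]} {d : ℕ} (hd : 1 ≤ d) (hA : A.natDegree ≤ d) (hB : B.natDegree ≤ d)
    (k : ℕ) (c : Fin d) (a : Fin k → Fin d) :
    SP A B d (k + 1) (Fin.cons c a) = X ^ (c : ℕ) * hom (d ^ k - 1) (SP A B d k a) A B := by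
  rw [SP, Fin.prod_univ_succ, ← sum_pow_sub_one d k hd, SP,
    hom_prod univ _ _ (fun t _ => natDegree_SP_factor a t)]
  congr 1
  · simp [iter]
  · refine prod_congr rfl fun t _ => ?_
    rw [Fin.cons_succ, Fin.val_succ, iter_comp hA hB]
    have hat := (a t).2
    have e : (d - 1) * d ^ (t : ℕ) = a t * d ^ (t : ℕ) + (d - 1 - a t) * d ^ (t : ℕ) := by
      rw [← add_mul]; congr 1; omega
    rw [e, hom_mul (natDegree_pow_le_of_le _ (iter_natDegree (t : ℕ)).1)
      (natDegree_pow_le_of_le _ (iter_natDegree (t : ℕ)).2), hom_pow (iter_natDegree (t : ℕ)).1,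
      hom_pow (iter_natDegree (t : ℕ)).2]

open Kronecker in
lemma csq_SP_succ {A B : K[X]} {d : ℕ} (hd : 1 ≤ d) (hA : A.natDegree ≤ d) (hB : B.natDegree ≤ d)
    (k : ℕ) : csq (SP A B d (k + 1)) = csq (SP A B d k) ^ d * csq (TF A B d (d ^ k)) := by
  set e : (Fin k → Fin d) ≃ Fin (d ^ k) := finFunctionFinEquiv
  set M : Matrix (Fin k → Fin d) (Fin k → Fin d) K :=
    Matrix.of fun i j => (SP A B d k i).coeff (e j : ℕ) with hM
  have h2 : M.det ^ 2 = csq (SP A B d k) := by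
    rw [csq_eq _ e]
    rfl
  set q : Fin d × (Fin k → Fin d) → K[X] := fun ca => TF A B d (d ^ k) (e ca.2, ca.1) with hq
  have h3 : csq q = csq (TF A B d (d ^ k)) := by
    rw [← csq_comp ((Equiv.prodComm (Fin d) (Fin k → Fin d)).trans
      (Equiv.prodCongr e (Equiv.refl (Fin d))))]
    rfl
  rw [← csq_comp (Fin.consEquiv fun _ => Fin d), csq_base ((1 : Matrix (Fin d) (Fin d) K) ⊗ₖ M) _ q,
    h3, Matrix.det_kronecker, Matrix.det_one, one_pow, one_mul, Fintype.card_fin, ← pow_mul,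
    mul_comm d 2, pow_mul, h2]
  rintro ⟨c, a⟩
  change SP A B d (k + 1) (Fin.cons c a) = _
  rw [SP_cons hd hA hB, ← hev_eq_hom, hev, Nat.sub_add_cancel (Nat.one_le_pow _ _ (by omega)),
    Fintype.sum_prod_type, Finset.sum_eq_single c]
  · rw [mul_sum, ← Fin.sum_univ_eq_sum_range (fun j => (X : K[X]) ^ (c : ℕ) *
      (algebraMap K K[X] ((SP A B d k a).coeff j) * A ^ j * B ^ (d ^ k - 1 - j))) (d ^ k),
      ← Equiv.sum_comp e]
    refine sum_congr rfl fun a' _ => ?_
    simp only [hq, TF, Matrix.kroneckerMap_apply, Matrix.one_apply_eq, hM, Matrix.of_apply, one_mul]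
    rw [Polynomial.algebraMap_apply, Algebra.algebraMap_self_apply]
    ring
  · intro c' _ hc'
    refine sum_eq_zero fun a' _ => ?_
    rw [Matrix.kroneckerMap_apply, Matrix.one_apply_ne hc'.symm, zero_mul, C_0, zero_mul]
  · intro h; exact absurd (mem_univ c) h

/-- the exponent -/
def rexp (d : ℕ) : ℕ → ℕ
  | 0 => 0
  | k + 1 => d * rexp d k + ∑ i ∈ range (d ^ k), i

lemma rexp_eq (d : ℕ) (hd : 1 ≤ d) (k : ℕ) :
    2 * (d * (d - 1)) * rexp d k + d ^ k * k * (d - 1) + d ^ k = d ^ k * d ^ k := by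
  induction k with
  | zero => simp [rexp]
  | succ k ih =>
    obtain ⟨e, rfl⟩ : ∃ e, d = e + 1 := ⟨d - 1, by omega⟩
    have h1 : (∑ i ∈ range ((e + 1) ^ k), i) * 2 = (e + 1) ^ k * ((e + 1) ^ k - 1) :=
      sum_range_id_mul_two _
    obtain ⟨m, hm⟩ : ∃ m, (e + 1) ^ k = m + 1 := ⟨(e + 1) ^ k - 1, by
      have : 0 < (e + 1) ^ k := by positivity
      omega⟩
    rw [rexp, pow_succ]
    rw [hm] at ih h1 ⊢
    simp only [Nat.add_sub_cancel] at ih h1 ⊢
    zify at ih h1 ⊢
    linear_combination (e + 1 : ℤ) * ih + ((e : ℤ) + 1) * e * h1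

lemma csq_SP {A B : K[X]} {d : ℕ} (hd : 1 ≤ d) (hA : A.natDegree ≤ d) (hB : B.natDegree ≤ d)
    (k : ℕ) : csq (SP A B d k) = (resultant A B d d ^ rexp d k) ^ 2 := by
  induction k with
  | zero =>
    rw [csq_eq _ finFunctionFinEquiv]
    have : cdet (SP A B d 0) (fun i => (finFunctionFinEquiv i : ℕ)) = 1 := by
      have h1 : (Matrix.of fun i j : Fin 0 → Fin d =>
          (SP A B d 0 i).coeff (finFunctionFinEquiv j : ℕ)) = (1 : Matrix _ _ K) := by
        ext i j
        rw [Subsingleton.elim i j, Matrix.one_apply_eq, Matrix.of_apply]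
        simp [SP]
      rw [cdet, h1, Matrix.det_one]
    rw [this]
    simp [rexp]
  | succ k ih =>
    rw [csq_SP_succ hd hA hB, ih, csq_TF hA hB, rexp, pow_add, mul_pow, ← pow_mul _ 2 d,
      mul_comm 2 d, pow_mul _ d 2, ← pow_mul _ _ d, mul_comm (rexp d k) d]

end step2

/-- K1 (m = d^k, r = m(m-1)/(2d(d-1)) - mk/(2d), i.e. r(1)=0, r(k+1) = d r(k) + m(m-1)/2) -/
theorem SP_det' {K : Type*} [Field K] {A B : K[X]} {d : ℕ} (hd : 2 ≤ d) (hA : A.natDegree ≤ d)
    (hB : B.natDegree ≤ d) (k : ℕ) (e : (Fin k → Fin d) ≃ Fin (d ^ k)) :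
    ∃ r : ℕ, 2 * (d * (d - 1)) * r + d ^ k * k * (d - 1) + d ^ k = d ^ k * d ^ k ∧
      ((Matrix.of fun a (c : Fin (d ^ k)) => (SP A B d k (e.symm a)).coeff (c : ℕ)).det =
        resultant A B d d ^ r ∨
      (Matrix.of fun a (c : Fin (d ^ k)) => (SP A B d k (e.symm a)).coeff (c : ℕ)).det =
        - resultant A B d d ^ r) := by
  refine ⟨rexp d k, rexp_eq d (by omega) k, ?_⟩
  rw [← sq_eq_sq_iff_eq_or_eq_neg, ← csq_SP (by omega) hA hB, csq_eq _ e]
  congr 1
  rw [cdet, ← Matrix.det_submatrix_equiv_self e.symm]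
  congr 1
  ext i j
  simp

/-- K1 in the form of the specification -/
theorem SP_det {K : Type*} [Field K] {A B : K[X]} {d : ℕ} (hd : 2 ≤ d) (hA : A.natDegree ≤ d)
    (hB : B.natDegree ≤ d) (k : ℕ) (_hk : 1 ≤ k) (e : (Fin k → Fin d) ≃ Fin (d ^ k)) :
    ∃ r : ℕ, 2 * (d * (d - 1)) * r + d ^ k * k * (d - 1) + d ^ k = d ^ k * d ^ k ∧
      ((Matrix.of fun a (c : Fin (d ^ k)) => (SP A B d k (e.symm a)).coeff (c : ℕ)).det =
        resultant A B d d ^ r ∨
      (Matrix.of fun a (c : Fin (d ^ k)) => (SP A B d k (e.symm a)).coeff (c : ℕ)).det =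
        - resultant A B d d ^ r) :=
  SP_det' hd hA hB k e

end Pool.Agent.Helper98.PS
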